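import Pool.Agent.U881.LF.Chain
import Mathlib.Combinatorics.SimpleGraph.Hasse
import Mathlib.Data.Set.Card

set_option autoImplicit false
set_option linter.unusedSectionVars false
set_option maxRecDepth 100000

/-!
# Multigraphs without a given induced linear forest with nine vertices
-/

namespace Pool.Agent.U881.LF

open Finset Pool.Agent.TH362.TF Pool.Agent.TH362.TF.Four Pool.Agent.R890.FF Pool.Agent.R140.PK

/-- the adjacency in the linear forest on `0, 1, ...` with the edges `i, i + 1` for the bits `i` of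
`S` -/
def fa (S a b : Nat) : Bool :=
  (decide (a + 1 = b) && S.testBit a) || (decide (b + 1 = a) && S.testBit b)

/-- a digit in base 16 -/
def hx (d i : Nat) : Nat := (d >>> (4 * i)) % 16

/-- the digits embed the forest `S` on `K` vertices into the forest `M` on `L` vertices -/
def sub (S K M L d : Nat) : Bool :=
  (List.range K).all fun i => decide (hx d i < L) && (List.range K).all fun j =>
    decide (i = j) || (decide (hx d i ≠ hx d j) && (fa S i j == fa M (hx d i) (hx d j)))

theorem sub_spec {S K M L d : Nat} (h : sub S K M L d = true) :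
    (∀ i, i < K → hx d i < L) ∧ ∀ i j, i < K → j < K → i ≠ j →
      hx d i ≠ hx d j ∧ fa S i j = fa M (hx d i) (hx d j) := by
  unfold sub at h
  rw [List.all_eq_true] at h
  have h1 : ∀ i, i < K → hx d i < L ∧ ∀ j, j < K → i ≠ j →
      hx d i ≠ hx d j ∧ fa S i j = fa M (hx d i) (hx d j) := by
    intro i hi
    have h2 := h i (List.mem_range.2 hi)
    rw [Bool.and_eq_true, decide_eq_true_eq, List.all_eq_true] at h2
    refine ⟨h2.1, fun j hj hij => ?_⟩
    have h3 := h2.2 j (List.mem_range.2 hj)
    rw [Bool.or_eq_true, decide_eq_true_eq, Bool.and_eq_true, decide_eq_true_eq] at h3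
    rcases h3 with h3 | h3
    · exact absurd h3 hij
    · exact ⟨h3.1, eq_of_beq h3.2⟩
  exact ⟨fun i hi => (h1 i hi).1, fun i j hi hj hij => (h1 i hi).2 j hj hij⟩

theorem fa_of_lt {M a b : Nat} (h : a < b) : fa M a b = true ↔ (a + 1 = b ∧ M.testBit a = true) := by
  unfold fa
  have h1 : ¬ b + 1 = a := by omega
  simp [h1]

theorem fa_comm (M a b : Nat) : fa M a b = fa M b a := by
  unfold fa
  rw [Bool.or_comm]

theorem has_fa {W : Type} {R : W → W → Prop} (hs : ∀ a b, R a b → R b a) {M L : Nat}
    {p : Fin L → W} (h : ∀ i j : Fin L, i < j → (R (p i) (p j) ↔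
      (i.val + 1 = j.val ∧ M.testBit i.val = true))) (i j : Fin L) (hij : i ≠ j) :
    R (p i) (p j) ↔ fa M i.val j.val = true := by
  rcases lt_or_gt_of_ne hij with h1 | h1
  · rw [h i j h1, fa_of_lt h1]
  · rw [fa_comm, fa_of_lt h1, ← h j i h1]
    exact ⟨hs _ _, hs _ _⟩

theorem has_sub {W : Type} {R : W → W → Prop} (hs : ∀ a b, R a b → R b a) {S K M L d : Nat}
    (h : Has R M L) (hc : sub S K M L d = true) : Has R S K := by
  obtain ⟨p, h1, h2, h3⟩ := h
  obtain ⟨c1, c2⟩ := sub_spec hc
  refine ⟨fun i => p ⟨hx d i.val, c1 _ i.2⟩, ?_, fun i => h2 _, ?_⟩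
  · intro i j hij
    have h4 := congrArg Fin.val (h1 hij)
    by_contra h5
    exact (c2 i.val j.val i.2 j.2 (fun h => h5 (Fin.ext h))).1 h4
  · intro i j hij
    obtain ⟨h4, h5⟩ := c2 i.val j.val i.2 j.2 (ne_of_lt hij)
    rw [has_fa hs h3 _ _ (fun h => h4 (congrArg Fin.val h)), ← fa_of_lt hij, h5]

/-- the number of edges -/
def ne (M : Nat) : Nat := ((List.range 8).filter fun i => M.testBit i).length

/-- the masks of the forests of the certificates -/
def masks : List Nat := [255, 127, 63, 95, 239, 111, 119, 171, 175, 55, 87, 15, 27, 43, 47, 23, 31]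

/-- the check of an entry -/
def entry (M x : Nat) : Bool :=
  if x % 4 = 0 then decide (ne M < 4) || decide (M &&& (M >>> 1) = 0)
  else if x % 4 = 1 then sub 91 8 M 9 (x / 4)
  else if x % 4 = 2 then decide (x / 4 % 256 ∈ masks) && sub M 9 (x / 4 % 256) 9 (x / 1024)
  else false

/-- all linear forests on `0, ..., 8` -/
def tab : List Nat := [
  0, 0, 0, 0, 0, 0, 0, 0, 0, 0, 0, 0, 0, 0, 0, 37217246920766, 0, 0, 0, 0, 0, 0, 0,
  37217246920798, 0, 0, 0, 37217246920814, 0, 37214956376158, 37216101602366, 37217246920830, 0,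
  0, 0, 0, 0, 0, 0, 37199127527518, 0, 0, 0, 37217246920878, 0, 37217103842478, 37198921734238,
  37217246920894, 0, 0, 0, 37198938783854, 0, 37143977462958, 37198921734254, 37217246920926, 0,
  37162273296478, 37162273019998, 37162273296606, 37180596655166, 37180596655294, 37198921734270,
  37217246920958, 0, 0, 0, 0, 0, 0, 0, 36635413069918, 0, 0, 0, 36927336628398, 0,
  36927193549998, 36635207276638, 36927336628414, 0, 0, 0, 36924065071278, 0, 0, 36924043828398,
  37217246921054, 0, 36921755372718, 36921754573998, 7940917313, 36630840858718, 37214956376414,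
  36924043828414, 37217246921086, 0, 0, 0, 36631197794414, 0, 35751804079278, 36631180744814,
  36924316729566, 0, 35751733300398, 35751732501678, 4527310913, 36630840858734, 1104761033,
  36924043828446, 37217246921150, 0, 36044470308958, 36044470032478, 36044470309086,
  36044461430878, 36044470309214, 36044465839326, 37217246921182, 36337639855166, 36337639855294,
  36337639578814, 36337639855550, 36630840858750, 36630840859006, 36924043828478, 37217246921214,
  0, 0, 0, 0, 0, 0, 0, 23235115106398, 0, 0, 0, 27907905306798, 0, 27907762228398,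
  23234909313118, 27907905306814, 0, 0, 0, 27904633749678, 0, 0, 27904612506798, 32578682241374,
  0, 27902324051118, 27902323252398, 9081768001, 23230542895198, 32576391696734, 27904612506814,
  32578682241406, 0, 0, 0, 27835176075438, 0, 0, 27835154832558, 32526337327454, 0, 0, 0,
  37217246921390, 27834747853998, 37217103842990, 32525997318494, 37217246921406, 0,
  27798137539758, 27798136741038, 9086240833, 27798119783598, 37143977463470, 9086241925,
  9086240833, 23143500601438, 32489349402974, 32489348604254, 9081768001, 27834747854014,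
  37180596655806, 32525997318526, 9086240833, 0, 0, 0, 23150369194094, 0, 9080057171118,
  23150352144494, 27840460898526, 0, 9079986392238, 9079985593518, 4531783745, 23150012258414,
  1109233865, 27840187997406, 32530363859390, 0, 9077784382638, 9077783583918, 5672634433,
  9077766626478, 9080057171630, 5672635525, 5672634433, 23143500601454, 1109234957, 2250085645,
  7940917313, 27834747854046, 1109233865, 32525997318590, 5672634433, 0, 13761643106398,
  13761642829918, 13761643106526, 13761634228318, 13761643106654, 13761638636766, 32526337327582,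
  13761429755998, 13761572327774, 13761571529054, 4527310913, 13761500028126, 1104761033,
  32525997318622, 37217246921662, 18452288738366, 18452288738494, 18452288462014, 18452288738750,
  18452279860414, 18452288739006, 18452284268990, 18452288739262, 23143500601470, 23143500601726,
  23143500325246, 9081768001, 27834747854078, 1109233865, 32525997318654, 37217246921726]

theorem tab_ok : ∀ M, M < 256 → entry M (tab.getD M 3) = true := by decide +kernel

section
variable {V E : Type} [Fintype V] [DecidableEq V] [DecidableEq E]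

theorem has_mask {s t : E → V} {S : Finset E} (h : Mc s t S) :
    ∀ M, M ∈ masks → Has (Nb s t S) M 9 := by
  intro M hM
  unfold masks at hM
  simp only [List.mem_cons, List.not_mem_nil, or_false] at hM
  rcases hM with rfl | rfl | rfl | rfl | rfl | rfl | rfl | rfl | rfl | rfl | rfl | rfl | rfl |
    rfl | rfl | rfl | rfl
  · exact has9 h
  · exact has81 h
  · exact has711 h
  · exact has621 h
  · exact has54 h
  · exact has531 h
  · exact has441 h
  · exact has3222 h
  · exact has522 h
  · exact has4311 h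
  · exact has4221 h
  · exact has51111 h
  · exact has33111 h
  · exact has32211 h
  · exact has5211 h
  · exact has42111 h
  · exact has6111 h

/-- the mask of a forest with at least four edges, two of them at a vertex, and without
`2P_3 + P_2` -/
def GoodM (M : Nat) : Prop :=
  M < 256 ∧ 4 ≤ ne M ∧ M &&& (M >>> 1) ≠ 0 ∧ ∀ d, sub 91 8 M 9 d ≠ true

theorem has_F {s t : E → V} {S : Finset E} (h : Mc s t S) (M : Nat) (hM : GoodM M) :
    Has (Nb s t S) M 9 := by
  obtain ⟨hM, h4, h2, h3⟩ := hM
  have h5 := tab_ok M hM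
  unfold entry at h5
  split_ifs at h5 with c0 c1 c2
  · rw [Bool.or_eq_true, decide_eq_true_eq, decide_eq_true_eq] at h5
    rcases h5 with h5 | h5
    · omega
    · exact absurd h5 h2
  · exact absurd h5 (h3 _)
  · rw [Bool.and_eq_true, decide_eq_true_eq] at h5
    exact has_sub (fun a b => nb_comm) (has_mask h _ h5.1) h5.2

/-- **multigraphs without an induced copy of a linear forest with nine vertices** -/
theorem mainM {s t : E → V} {S : Finset E} (hn : N1 s t S) {M : Nat} (hM : GoodM M)
    (hp : ¬ Has (Nb s t S) M 9) : NZ s t S ∨ PQ s t S := by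
  classical
  by_cases c1 : NZ s t S
  · exact Or.inl c1
  by_cases c2 : PQ s t S
  · exact Or.inr c2
  obtain ⟨π, hπ, hc⟩ := exists_Mc s t S hn c1 c2
  exact absurd (lift_has hπ (has_F hc M hM)) hp

theorem fa_332 : ∀ i j : Fin 8, i < j → (fa 91 i.val j.val = true ↔
    (i.val + 1 = j.val ∧ i.val ≠ 2 ∧ i.val ≠ 5)) := by decide +kernel

/-- the mask of a linear forest -/
noncomputable def msF (F : SimpleGraph (Fin 9)) : Nat :=
  haveI := Classical.decPred fun i : Fin 8 => F.Adj i.castSucc i.succ
  Nat.ofBits fun i : Fin 8 => decide (F.Adj i.castSucc i.succ)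

theorem msF_lt (F : SimpleGraph (Fin 9)) : msF F < 256 := by
  unfold msF
  exact Nat.ofBits_lt_two_pow _

theorem msF_bit (F : SimpleGraph (Fin 9)) (i : Fin 8) :
    (msF F).testBit i.val = true ↔ F.Adj i.castSucc i.succ := by
  classical
  unfold msF
  rw [Nat.testBit_ofBits_lt _ _ i.2, decide_eq_true_eq]

theorem msF_adj (F : SimpleGraph (Fin 9)) (hF : F ≤ SimpleGraph.pathGraph 9) (i j : Fin 9) :
    F.Adj i j ↔ fa (msF F) i.val j.val = true := by
  have key : ∀ i j : Fin 9, i < j → (F.Adj i j ↔ fa (msF F) i.val j.val = true) := by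
    intro i j hij
    rw [fa_of_lt hij]
    have hij' : i.val < j.val := hij
    constructor
    · intro h1
      have h2 := hF h1
      rw [SimpleGraph.pathGraph_adj] at h2
      have h3 : i.val + 1 = j.val := by omega
      refine ⟨h3, ?_⟩
      have h4 := msF_bit F ⟨i.val, by omega⟩
      rw [h4]
      have e1 : (⟨i.val, by omega⟩ : Fin 8).castSucc = i := rfl
      have e2 : (⟨i.val, by omega⟩ : Fin 8).succ = j := Fin.ext h3
      rw [e1, e2]
      exact h1
    · rintro ⟨h3, h4⟩
      have h5 := (msF_bit F ⟨i.val, by omega⟩).1 h4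
      have e1 : (⟨i.val, by omega⟩ : Fin 8).castSucc = i := rfl
      have e2 : (⟨i.val, by omega⟩ : Fin 8).succ = j := Fin.ext h3
      rw [e1, e2] at h5
      exact h5
  rcases lt_trichotomy i j with h | h | h
  · exact key i j h
  · subst h
    have h1 : fa (msF F) i.val i.val = false := by
      unfold fa
      simp
    rw [h1]
    simp
  · rw [fa_comm, ← key j i h]
    exact F.adj_comm i j

theorem msF_ne (F : SimpleGraph (Fin 9)) (hF : F ≤ SimpleGraph.pathGraph 9) :
    F.edgeSet.ncard ≤ ne (msF F) := by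
  classical
  set A : Finset (Fin 8) := univ.filter (fun i => (msF F).testBit i.val = true) with hA
  have h1 : F.edgeSet ⊆ ((A.image (fun i : Fin 8 => s(i.castSucc, i.succ)) :
      Finset (Sym2 (Fin 9))) : Set (Sym2 (Fin 9))) := by
    intro x
    induction x using Sym2.ind with
    | _ a b =>
      intro hx
      rw [SimpleGraph.mem_edgeSet] at hx
      rw [Finset.mem_coe, mem_image]
      have h2 := hF hx
      rw [SimpleGraph.pathGraph_adj] at h2
      rcases h2 with h2 | h2
      · have e1 : (⟨a.val, by omega⟩ : Fin 8).castSucc = a := rfl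
        have e2 : (⟨a.val, by omega⟩ : Fin 8).succ = b := Fin.ext h2
        refine ⟨⟨a.val, by omega⟩, mem_filter.2 ⟨mem_univ _, (msF_bit F _).2 ?_⟩, ?_⟩
        · rw [e1, e2]; exact hx
        · rw [e1, e2]
      · have e1 : (⟨b.val, by omega⟩ : Fin 8).castSucc = b := rfl
        have e2 : (⟨b.val, by omega⟩ : Fin 8).succ = a := Fin.ext h2
        refine ⟨⟨b.val, by omega⟩, mem_filter.2 ⟨mem_univ _, (msF_bit F _).2 ?_⟩, ?_⟩
        · rw [e1, e2]; exact hx.symm
        · rw [e1, e2]; exact Sym2.eq_swap
  have h3 := Set.ncard_le_ncard h1 (Finset.finite_toSet _)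
  rw [Set.ncard_coe_finset] at h3
  refine h3.trans (card_image_le.trans ?_)
  unfold ne
  have h4 : A.image Fin.val ⊆ ((List.range 8).filter fun i => (msF F).testBit i).toFinset := by
    intro i hi
    obtain ⟨j, hj, rfl⟩ := mem_image.1 hi
    rw [List.mem_toFinset, List.mem_filter, List.mem_range]
    exact ⟨j.2, (mem_filter.1 hj).2⟩
  rw [← card_image_of_injective A Fin.val_injective]
  exact (card_le_card h4).trans (List.toFinset_card_le _)

theorem goodM_of (F : SimpleGraph (Fin 9)) (hF : F ≤ SimpleGraph.pathGraph 9)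
    (h4 : 4 ≤ F.edgeSet.ncard)
    (h3 : ∃ a b c, a ≠ c ∧ F.Adj a b ∧ F.Adj b c)
    (hT : ¬ ∃ q : Fin 8 → Fin 9, Function.Injective q ∧
      ∀ i j, i < j → (F.Adj (q i) (q j) ↔ (i.val + 1 = j.val ∧ i.val ≠ 2 ∧ i.val ≠ 5))) :
    GoodM (msF F) := by
  refine ⟨msF_lt F, h4.trans (msF_ne F hF), ?_, ?_⟩
  · obtain ⟨a, b, c, hac, hab, hbc⟩ := h3
    have k1 := hF hab
    have k2 := hF hbc
    rw [SimpleGraph.pathGraph_adj] at k1 k2
    have key : ∀ a b c : Fin 9, a.val + 1 = b.val → b.val + 1 = c.val → F.Adj a b → F.Adj b c →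
        msF F &&& (msF F >>> 1) ≠ 0 := by
      intro a b c e1 e2 hab hbc h0
      have h6 := (msF_adj F hF a b).1 hab
      have h7 := (msF_adj F hF b c).1 hbc
      rw [fa_of_lt (by omega)] at h6 h7
      have h8 : (msF F &&& (msF F >>> 1)).testBit a.val = true := by
        rw [Nat.testBit_and, Nat.testBit_shiftRight, h6.2, Nat.add_comm, e1, h7.2]
        rfl
      rw [h0, Nat.zero_testBit] at h8
      simp at h8
    rcases k1 with k1 | k1 <;> rcases k2 with k2 | k2
    · exact key a b c k1 k2 hab hbc
    · exact absurd (Fin.ext (by omega)) hac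
    · exact absurd (Fin.ext (by omega)) hac
    · exact key c b a k2 k1 hbc.symm hab.symm
  · intro d hd
    obtain ⟨d1, d2⟩ := sub_spec hd
    have hinj : Function.Injective fun i : Fin 8 => (⟨hx d i.val, d1 _ i.2⟩ : Fin 9) := by
      intro i j hij
      by_contra h6
      exact (d2 i.val j.val i.2 j.2 (fun h => h6 (Fin.ext h))).1 (congrArg Fin.val hij)
    refine hT ⟨fun i => ⟨hx d i.val, d1 _ i.2⟩, hinj, fun i j hij => ?_⟩
    rw [msF_adj F hF, ← fa_332 i j hij, (d2 i.val j.val i.2 j.2 (ne_of_lt hij)).2]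

theorem no_has_of {s t : E → V} (F : SimpleGraph (Fin 9)) [Fintype E]
    (hF : F ≤ SimpleGraph.pathGraph 9)
    (hp : ¬ ∃ p : Fin 9 → V, Function.Injective p ∧ ∀ i j, i ≠ j →
      ((∃ e, (s e = p i ∧ t e = p j) ∨ (s e = p j ∧ t e = p i)) ↔ F.Adj i j)) :
    ¬ Has (Nb s t univ) (msF F) 9 := by
  rintro ⟨p, hp1, -, hp2⟩
  refine hp ⟨p, hp1, fun i j hij => ?_⟩
  rw [msF_adj F hF, ← has_fa (fun a b => nb_comm) hp2 i j hij]
  constructor
  · rintro ⟨e, he⟩
    exact ⟨fun h => hij (hp1 h).symm, e, Finset.mem_univ e, he⟩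
  · rintro ⟨_, e, _, he⟩
    exact ⟨e, he⟩

/-- **multigraphs without an induced copy of a linear forest with nine vertices** -/
theorem main9 [Fintype E] (s t : E → V) (hn : N1 s t univ)
    (F : SimpleGraph (Fin 9)) (hF : F ≤ SimpleGraph.pathGraph 9) (h4 : 4 ≤ F.edgeSet.ncard)
    (h3 : ∃ a b c, a ≠ c ∧ F.Adj a b ∧ F.Adj b c)
    (hT : ¬ ∃ q : Fin 8 → Fin 9, Function.Injective q ∧
      ∀ i j, i < j → (F.Adj (q i) (q j) ↔ (i.val + 1 = j.val ∧ i.val ≠ 2 ∧ i.val ≠ 5)))
    (hp : ¬ ∃ p : Fin 9 → V, Function.Injective p ∧ ∀ i j, i ≠ j →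
      ((∃ e, (s e = p i ∧ t e = p j) ∨ (s e = p j ∧ t e = p i)) ↔ F.Adj i j)) :
    NZ s t univ ∨ PQ s t univ :=
  mainM hn (goodM_of F hF h4 h3 hT) (no_has_of F hF hp)

end

end Pool.Agent.U881.LF
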