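import Pool.Agent.U881.LF.Lift
import Pool.Agent.R545.IN.Main
import Pool.Agent.U881.LF.Data.C9
import Pool.Agent.U881.LF.Data.C81
import Pool.Agent.U881.LF.Data.C711
import Pool.Agent.U881.LF.Data.C621
import Pool.Agent.U881.LF.Data.C54
import Pool.Agent.U881.LF.Data.C531
import Pool.Agent.U881.LF.Data.C441
import Pool.Agent.U881.LF.Data.C3222
import Pool.Agent.U881.LF.Data.C522
import Pool.Agent.U881.LF.Data.C4311
import Pool.Agent.U881.LF.Data.C4221
import Pool.Agent.U881.LF.Data.C51111
import Pool.Agent.U881.LF.Data.C33111
import Pool.Agent.U881.LF.Data.C32211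
import Pool.Agent.U881.LF.Data.C5211
import Pool.Agent.U881.LF.Data.C42111
import Pool.Agent.U881.LF.Data.C6111

set_option autoImplicit false

/-!
# Induced linear forests with nine vertices in minimal contractions
-/

namespace Pool.Agent.U881.LF

open Finset Pool.Agent.TH362.TF Pool.Agent.TH362.TF.Four Pool.Agent.R890.FF Pool.Agent.R140.PK

variable {V E : Type} [Fintype V] [DecidableEq V] [DecidableEq E] {s t : E → V} {S : Finset E}

/-- seven vertices which are pairwise not adjacent -/
theorem has_seven (h : Mc s t S) : Has (Nb s t S) 0 7 := by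
  classical
  set W : Finset V := univ.filter (fun y => ∃ z, Nb s t S y z) with hW
  have hN : ∀ y, W.filter (Nb s t S y) = univ.filter (Nb s t S y) := by
    intro y
    ext z
    constructor
    · intro h0
      exact mem_filter.2 ⟨mem_univ _, (mem_filter.1 h0).2⟩
    · intro h0
      have h1 := (mem_filter.1 h0).2
      exact mem_filter.2 ⟨mem_filter.2 ⟨mem_univ _, y, nb_comm h1⟩, h1⟩
  have hgood : Pool.Agent.R545.IN.Good (Nb s t S) :=
    { symm := nb_comm
      irr := fun _ h' => h'.1 rfl
      tri := fun h1 h2 h3 => h.tri h1 h2 h3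
      four := fun hac hbd h1 h2 h3 h4 => h.four hac hbd h1 h2 h3 h4 }
  obtain ⟨I, hI, hIc, hi⟩ := Pool.Agent.R545.IN.ind7 hgood W (by
      intro v hv
      rw [hN v]
      obtain ⟨z, hz⟩ := (mem_filter.1 hv).2
      have h1 : 0 < (univ.filter (Nb s t S v)).card :=
        card_pos.2 ⟨z, mem_filter.2 ⟨mem_univ _, hz⟩⟩
      have h2 := h.nb_ne_one v
      have h3 := h.nb_ne_two v
      omega) (by
      refine h.odd18.trans (card_le_card fun y hy => ?_)
      have h1 := (h.odd_nb y).1 hy
      rw [mem_filter, hN y]
      refine ⟨?_, h1⟩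
      obtain ⟨z, hz⟩ := card_pos.1 (show 0 < (univ.filter (Nb s t S y)).card by omega)
      exact mem_filter.2 ⟨mem_univ _, z, (mem_filter.1 hz).2⟩)
  set φ := (Finset.equivFinOfCardEq hIc).symm with hφ
  refine ⟨fun i => (φ i : V), fun i j hij => φ.injective (Subtype.ext hij),
    fun i => (mem_filter.1 (hI (φ i).2)).2, fun i j hij => ?_⟩
  rw [Nat.zero_testBit]
  exact ⟨fun h1 => absurd h1 (hi _ (φ i).2 _ (φ j).2), fun h1 => absurd h1.2 (by simp)⟩

theorem has9 (h : Mc s t S) : Has (Nb s t S) 255 9 :=
  step (hypG_of h) (has_one h) (e := 0) (by decide +kernel) (by norm_num) C9.last (by norm_num)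
    C9.all

theorem has81 (h : Mc s t S) : Has (Nb s t S) 127 9 :=
  step (hypG_of h) (has9 h) (e := 274126874431583211784193) (by decide +kernel) (by norm_num) C81.last (by norm_num)
    C81.all

theorem has711 (h : Mc s t S) : Has (Nb s t S) 63 9 :=
  step (hypG_of h) (has9 h) (e := 274126874431583211784193) (by decide +kernel) (by norm_num) C711.last (by norm_num)
    C711.all

theorem has621 (h : Mc s t S) : Has (Nb s t S) 95 9 :=
  step (hypG_of h) (has9 h) (e := 274126874431583211784193) (by decide +kernel) (by norm_num) C621.last (by norm_num)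
    C621.all

theorem has54 (h : Mc s t S) : Has (Nb s t S) 239 9 :=
  step (hypG_of h) (has9 h) (e := 274126874431583211784193) (by decide +kernel) (by norm_num) C54.last (by norm_num)
    C54.all

theorem has531 (h : Mc s t S) : Has (Nb s t S) 111 9 :=
  step (hypG_of h) (has54 h) (e := 267702025776624863233) (by decide +kernel) (by norm_num) C531.last (by norm_num)
    C531.all

theorem has441 (h : Mc s t S) : Has (Nb s t S) 119 9 :=
  step (hypG_of h) (has54 h) (e := 267702025776624863233) (by decide +kernel) (by norm_num) C441.last (by norm_num)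
    C441.all

theorem has3222 (h : Mc s t S) : Has (Nb s t S) 171 9 :=
  step (hypG_of h) (has9 h) (e := 274126874431583211784193) (by decide +kernel) (by norm_num) C3222.last (by norm_num)
    C3222.all

theorem has522 (h : Mc s t S) : Has (Nb s t S) 175 9 :=
  step (hypG_of h) (has3222 h) (e := 255265043679233) (by decide +kernel) (by norm_num) C522.last (by norm_num)
    C522.all

theorem has4311 (h : Mc s t S) : Has (Nb s t S) 55 9 :=
  step (hypG_of h) (has3222 h) (e := 255265043679233) (by decide +kernel) (by norm_num) C4311.last (by norm_num)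
    C4311.all

theorem has4221 (h : Mc s t S) : Has (Nb s t S) 87 9 :=
  step (hypG_of h) (has3222 h) (e := 255265043679233) (by decide +kernel) (by norm_num) C4221.last (by norm_num)
    C4221.all

theorem has51111 (h : Mc s t S) : Has (Nb s t S) 15 9 :=
  step (hypG_of h) (has_seven h) (e := 0) (by decide +kernel) (by norm_num) C51111.last (by norm_num)
    C51111.all

theorem has33111 (h : Mc s t S) : Has (Nb s t S) 27 9 :=
  step (hypG_of h) (has51111 h) (e := 107444471809) (by decide +kernel) (by norm_num) C33111.last (by norm_num)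
    C33111.all

theorem has32211 (h : Mc s t S) : Has (Nb s t S) 43 9 :=
  step (hypG_of h) (has51111 h) (e := 107444471809) (by decide +kernel) (by norm_num) C32211.last (by norm_num)
    C32211.all

theorem has5211 (h : Mc s t S) : Has (Nb s t S) 47 9 :=
  step (hypG_of h) (has32211 h) (e := 178346035201) (by decide +kernel) (by norm_num) C5211.last (by norm_num)
    C5211.all

theorem has42111 (h : Mc s t S) : Has (Nb s t S) 23 9 :=
  step (hypG_of h) (has51111 h) (e := 107444471809) (by decide +kernel) (by norm_num) C42111.last (by norm_num)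
    C42111.all

theorem has6111 (h : Mc s t S) : Has (Nb s t S) 31 9 :=
  step (hypG_of h) (has9 h) (e := 274126874431583211784193) (by decide +kernel) (by norm_num) C6111.last (by norm_num)
    C6111.all

end Pool.Agent.U881.LF
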