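import Pool.Agent.R140.PK.Check
import Mathlib.Data.Fintype.EquivFin
import Mathlib.Data.ZMod.Basic
import Mathlib.Algebra.BigOperators.Group.Finset.Basic

set_option autoImplicit false
set_option linter.unusedSectionVars false
set_option linter.unusedVariables false

/-!
# A search with lemmas for graphs without circuits of length at most four

The states of the search are those of `Pool.Agent.R140.PK.Check` (graphs on `0, ..., m - 1`, which
are extended by a new vertex adjacent to a vertex with at most two neighbours).  The certificate is a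
list of states.  Every extension of a state contains a given linear forest as an induced subgraph, or
it contains a state which is earlier in the list as an induced subgraph.
-/

namespace Pool.Agent.U881.LF

open Pool.Agent.R140.PK

/-- binary trees of numbers -/
inductive Tr where
  | nil : Tr
  | node : Tr → Nat → Tr → Tr

/-- the `i`-th entry -/
def Tr.get : Tr → Nat → Nat
  | .nil, _ => nat_lit 0
  | .node l c r, i =>
    bif Nat.beq i (nat_lit 0) then c
    else bif Nat.beq (Nat.mod i (nat_lit 2)) (nat_lit 1) then l.get (Nat.div i (nat_lit 2))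
    else r.get (Nat.pred (Nat.div i (nat_lit 2)))

/-- a digit in base 32 -/
def dgt (p i : Nat) : Nat :=
  Nat.mod (Nat.shiftRight p (Nat.mul (nat_lit 5) i)) (nat_lit 32)

theorem dgt_eq (p i : Nat) : dgt p i = dg p i := by
  unfold dgt dg
  have h : Nat.mod (Nat.shiftRight p (Nat.mul 5 i)) 32 = (p >>> (5 * i)) % 32 := rfl
  have h2 : (2 : Nat) ^ 5 = 32 := rfl
  rw [h, Nat.shiftRight_eq_div_pow, pow_mul, h2]

/-- the two bits of an edge -/
def pb (x y : Nat) : Nat :=
  Nat.lor (bit (Nat.add (Nat.mul (nat_lit 32) x) y)) (bit (Nat.add (Nat.mul (nat_lit 32) y) x))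

/-- the matrix of the list of edges `e` (digits in base 1024), with new names given by `p` -/
def relab : Nat → Nat → Nat → Nat → Nat
  | 0, _, _, acc => acc
  | k + 1, e, p, acc =>
    bif Nat.beq e (nat_lit 0) then acc
    else relab k (Nat.div e (nat_lit 1024)) p
      (Nat.lor acc (pb (dgt p (Nat.mod (Nat.div e (nat_lit 32)) (nat_lit 32)))
        (dgt p (Nat.mod e (nat_lit 32)))))

/-- the edges -/
def digs : Nat → Nat → List (Nat × Nat)
  | 0, _ => []
  | k + 1, e => if e = 0 then [] else (e / 32 % 32, e % 32) :: digs k (e / 1024)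

theorem pb_bit (x y z : Nat) : (pb x y).testBit z = true ↔ (z = 32 * x + y ∨ z = 32 * y + x) := by
  have h1 : Nat.add (Nat.mul 32 x) y = 32 * x + y := rfl
  have h2 : Nat.add (Nat.mul 32 y) x = 32 * y + x := rfl
  unfold pb
  rw [lor_bit, bit_bit, bit_bit, Bool.or_eq_true, decide_eq_true_eq, decide_eq_true_eq, h1, h2,
    eq_comm, @eq_comm _ (32 * y + x)]

theorem relab_bit (p z : Nat) : ∀ k e acc, (relab k e p acc).testBit z = true ↔
    (acc.testBit z = true ∨ ∃ d ∈ digs k e, z = 32 * dg p d.1 + dg p d.2 ∨
      z = 32 * dg p d.2 + dg p d.1) := by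
  intro k
  induction k with
  | zero => intro e acc; simp [relab, digs]
  | succ k ih =>
    intro e acc
    rw [relab, digs]
    by_cases he : e = 0
    · subst he
      simp
    · have h0 : Nat.beq e 0 = false := by
        cases h : Nat.beq e 0
        · rfl
        · exact absurd (Nat.eq_of_beq_eq_true h) he
      have h1 : Nat.div e 1024 = e / 1024 := rfl
      have h2 : Nat.mod (Nat.div e 32) 32 = e / 32 % 32 := rfl
      have h3 : Nat.mod e 32 = e % 32 := rfl
      rw [h0, cond_false, if_neg he, ih, h1, h2, h3, lor_bit, Bool.or_eq_true, pb_bit, dgt_eq,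
        dgt_eq]
      simp only [List.mem_cons, exists_eq_or_imp]
      rw [or_assoc]

/-- the entries are small -/
def good (m : Nat) : Nat → Nat → Bool
  | 0, _ => true
  | k + 1, e =>
    bif Nat.beq e (nat_lit 0) then true
    else bif Nat.blt (Nat.mod (Nat.div e (nat_lit 32)) (nat_lit 32)) m then
      bif Nat.blt (Nat.mod e (nat_lit 32)) m then good m k (Nat.div e (nat_lit 1024)) else false
    else false

theorem good_spec (m : Nat) : ∀ k e, good m k e = true → ∀ d ∈ digs k e, d.1 < m ∧ d.2 < m := by
  intro k
  induction k with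
  | zero => intro e _ d hd; simp [digs] at hd
  | succ k ih =>
    intro e h d hd
    rw [good] at h
    rw [digs] at hd
    by_cases he : e = 0
    · subst he; simp at hd
    · have h0 : Nat.beq e 0 = false := by
        cases h : Nat.beq e 0
        · rfl
        · exact absurd (Nat.eq_of_beq_eq_true h) he
      rw [h0, cond_false] at h
      cases h1 : Nat.blt (Nat.mod (Nat.div e 32) 32) m
      · rw [h1, cond_false] at h; simp at h
      · rw [h1, cond_true] at h
        cases h2 : Nat.blt (Nat.mod e 32) m
        · rw [h2, cond_false] at h; simp at h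
        · rw [h2, cond_true] at h
          rw [if_neg he, List.mem_cons] at hd
          rcases hd with rfl | hd
          · exact ⟨Nat.le_of_ble_eq_true h1, Nat.le_of_ble_eq_true h2⟩
          · exact ih _ h d hd

/-- the digits `0, 1, ..., 31` -/
def idp : Nat := nat_lit 1459980823972598128486511383358617792788444579872

theorem idp_dg : ∀ i, i < 32 → dg idp i = i := by decide +kernel

/-- the matrix of a list of edges -/
def matA (e : Nat) : Nat := relab (nat_lit 64) e idp (nat_lit 0)

/-- the first digits are different and small -/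
def injc (m : Nat) : Nat → Nat → Nat → Bool
  | 0, _, _ => true
  | k + 1, p, seen =>
    bif Nat.ble m (Nat.mod p (nat_lit 32)) then false
    else bif tb seen (Nat.mod p (nat_lit 32)) then false
    else injc m k (Nat.div p (nat_lit 32)) (Nat.lor seen (bit (Nat.mod p (nat_lit 32))))

theorem injc_spec (m : Nat) : ∀ (k p seen : Nat) (P : Nat → Prop),
    (∀ z, seen.testBit z = true ↔ P z) → injc m k p seen = true →
    (∀ i, i < k → dg p i < m ∧ ¬ P (dg p i)) ∧ ∀ i j, i < j → j < k → dg p i ≠ dg p j := by
  intro k
  induction k with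
  | zero =>
    intro p seen P _ _
    exact ⟨fun i hi => absurd hi (by omega), fun i j _ hj => absurd hj (by omega)⟩
  | succ k ih =>
    intro p seen P hP h
    rw [injc] at h
    have hmod : Nat.mod p 32 = dg p 0 := (dg_zero p).symm
    have hdiv : Nat.div p 32 = p / 32 := rfl
    simp only [hmod, hdiv, tb_eq] at h
    cases h1 : Nat.ble m (dg p 0)
    · rw [h1, cond_false] at h
      cases h2 : seen.testBit (dg p 0)
      · rw [h2, cond_false] at h
        have h1' : dg p 0 < m := by
          by_contra hh
          rw [Nat.ble_eq_true_of_le (by omega)] at h1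
          simp at h1
        have h2' : ¬ P (dg p 0) := by
          rw [← hP, h2]; simp
        obtain ⟨r1, r2⟩ := ih (p / 32) _ (fun z => P z ∨ z = dg p 0) (fun z => by
          rw [lor_bit, bit_bit, Bool.or_eq_true, hP, decide_eq_true_eq, eq_comm (a := z)]) h
        refine ⟨?_, ?_⟩
        · intro i hi
          cases i with
          | zero => exact ⟨h1', h2'⟩
          | succ i =>
            rw [dg_succ]
            obtain ⟨a, b⟩ := r1 i (by omega)
            exact ⟨a, fun h => b (Or.inl h)⟩
        · intro i j hij hj
          obtain ⟨j', rfl⟩ : ∃ j', j = j' + 1 := ⟨j - 1, by omega⟩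
          cases i with
          | zero =>
            rw [dg_succ]
            obtain ⟨_, b⟩ := r1 j' (by omega)
            exact fun h => b (Or.inr h.symm)
          | succ i =>
            rw [dg_succ, dg_succ]
            exact r2 i j' (by omega) (by omega)
      · rw [h2, cond_true] at h; simp at h
    · rw [h1, cond_true] at h; simp at h

/-- the first `k` digits of `p` are an induced linear forest of the shape `S` -/
def isF (A m : Nat) : Nat → Nat → Nat → Nat → Nat → Bool
  | 0, _, _, _, _ => true
  | k + 1, p, seen, prev, S =>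
    bif Nat.beq (Nat.land (row A (Nat.mod p (nat_lit 32))) seen) prev then
    bif tb seen (Nat.mod p (nat_lit 32)) then false else
    bif Nat.ble m (Nat.mod p (nat_lit 32)) then false else
      isF A m k (Nat.div p (nat_lit 32)) (Nat.lor seen (bit (Nat.mod p (nat_lit 32))))
        (bif Nat.beq (Nat.mod S (nat_lit 2)) (nat_lit 1) then bit (Nat.mod p (nat_lit 32))
          else nat_lit 0) (Nat.div S (nat_lit 2))
    else false

theorem S_zero (S : Nat) : Nat.beq (Nat.mod S 2) 1 = S.testBit 0 := by
  rw [Nat.testBit_zero]
  have h : Nat.mod S 2 = S % 2 := rfl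
  rw [h]
  by_cases h1 : S % 2 = 1
  · rw [h1]; rfl
  · rw [decide_eq_false h1]
    exact Bool.eq_false_iff.2 (fun h => h1 (Nat.eq_of_beq_eq_true h))

theorem S_succ (S i : Nat) : (Nat.div S 2).testBit i = S.testBit (i + 1) := by
  have h : Nat.div S 2 = S / 2 := rfl
  rw [h, Nat.testBit_succ]

theorem isF_spec (A m : Nat) : ∀ (k p seen prev S : Nat) (P : Nat → Prop) (Q : Nat → Prop),
    (∀ z, seen.testBit z = true ↔ P z) → (∀ z, prev.testBit z = true ↔ Q z) →
    isF A m k p seen prev S = true →
    (∀ i, i < k → dg p i < m) ∧
    (∀ i, i < k → ∀ z, P z → z ≠ dg p i ∧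
      ((row A (dg p i)).testBit z = true ↔ (i = 0 ∧ Q z))) ∧
    (∀ i j, i < j → j < k → dg p i ≠ dg p j ∧
      ((row A (dg p j)).testBit (dg p i) = true ↔ (i + 1 = j ∧ S.testBit i = true))) := by
  intro k
  induction k with
  | zero =>
    intro p seen prev S P Q _ _ _
    exact ⟨fun i hi => absurd hi (by omega), fun i hi => absurd hi (by omega),
      fun i j _ hj => absurd hj (by omega)⟩
  | succ k ih =>
    intro p seen prev S P Q hP hQ h
    rw [isF] at h
    have hmod : Nat.mod p 32 = dg p 0 := (dg_zero p).symm
    have hdiv : Nat.div p 32 = p / 32 := rfl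
    simp only [hmod, hdiv, tb_eq, S_zero] at h
    cases h1 : Nat.beq (Nat.land (row A (dg p 0)) seen) prev
    · rw [h1] at h; simp [cond] at h
    · rw [h1] at h
      simp only [cond_true] at h
      have h1' := Nat.eq_of_beq_eq_true h1
      cases h2 : seen.testBit (dg p 0)
      · rw [h2] at h
        simp only [cond_false] at h
        cases h3 : Nat.ble m (dg p 0)
        · rw [h3] at h
          simp only [cond_false] at h
          have h3' : dg p 0 < m := by
            by_contra hh
            rw [Nat.ble_eq_true_of_le (by omega)] at h3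
            simp at h3
          have h2' : ¬ P (dg p 0) := by
            rw [← hP, h2]; simp
          obtain ⟨r1, r2, r3⟩ := ih (p / 32) _ _ _ (fun z => P z ∨ z = dg p 0)
            (fun z => z = dg p 0 ∧ S.testBit 0 = true) (fun z => by
              rw [lor_bit, bit_bit, Bool.or_eq_true, hP, decide_eq_true_eq, eq_comm (a := z)])
            (fun z => by
              cases h4 : S.testBit 0
              · rw [cond_false, Nat.zero_testBit]; simp
              · rw [cond_true, bit_bit, decide_eq_true_eq, eq_comm (a := z)]; simp) h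
          refine ⟨?_, ?_, ?_⟩
          · intro i hi
            cases i with
            | zero => exact h3'
            | succ i => rw [dg_succ]; exact r1 i (by omega)
          · intro i hi z hz
            cases i with
            | zero =>
              refine ⟨fun h => h2' (h ▸ hz), ?_⟩
              have h5 : (Nat.land (row A (dg p 0)) seen).testBit z = prev.testBit z := by rw [h1']
              rw [land_bit, (hP z).2 hz, Bool.and_true] at h5
              rw [h5, hQ]
              simp
            | succ i =>
              rw [dg_succ]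
              obtain ⟨a1, a2⟩ := r2 i (by omega) z (Or.inl hz)
              refine ⟨a1, a2.trans ?_⟩
              constructor
              · rintro ⟨_, rfl, _⟩; exact absurd hz h2'
              · rintro ⟨h, _⟩; omega
          · intro i j hij hj
            obtain ⟨j', rfl⟩ : ∃ j', j = j' + 1 := ⟨j - 1, by omega⟩
            cases i with
            | zero =>
              rw [dg_succ]
              obtain ⟨a1, a2⟩ := r2 j' (by omega) (dg p 0) (Or.inr rfl)
              refine ⟨a1, a2.trans ?_⟩
              constructor
              · rintro ⟨h, _, h'⟩; exact ⟨by omega, h'⟩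
              · rintro ⟨h, h'⟩; exact ⟨by omega, rfl, h'⟩
            | succ i =>
              rw [dg_succ, dg_succ]
              obtain ⟨a1, a2⟩ := r3 i j' (by omega) (by omega)
              rw [S_succ] at a2
              refine ⟨a1, a2.trans ?_⟩
              constructor
              · rintro ⟨h, h'⟩; exact ⟨by omega, h'⟩
              · rintro ⟨h, h'⟩; exact ⟨by omega, h'⟩
        · rw [h3] at h; simp [cond] at h
      · rw [h2] at h; simp [cond] at h

/-- the set of the first `k` digits -/
def msk : Nat → Nat → Nat → Nat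
  | 0, _, acc => acc
  | k + 1, p, acc => msk k (Nat.div p (nat_lit 32)) (Nat.lor acc (bit (Nat.mod p (nat_lit 32))))

theorem msk_bit (z : Nat) : ∀ k p acc, (msk k p acc).testBit z = true ↔
    (acc.testBit z = true ∨ ∃ i, i < k ∧ dg p i = z) := by
  intro k
  induction k with
  | zero => intro p acc; simp [msk]
  | succ k ih =>
    intro p acc
    have hdiv : Nat.div p 32 = p / 32 := rfl
    have hmod : Nat.mod p 32 = dg p 0 := (dg_zero p).symm
    rw [msk, ih, lor_bit, Bool.or_eq_true, bit_bit, decide_eq_true_eq, hdiv, hmod, or_assoc]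
    refine or_congr Iff.rfl ?_
    constructor
    · rintro (h | ⟨i, hi, h⟩)
      · exact ⟨0, by omega, h⟩
      · exact ⟨i + 1, by omega, by rw [dg_succ]; exact h⟩
    · rintro ⟨i, hi, h⟩
      cases i with
      | zero => exact Or.inl h
      | succ i => rw [dg_succ] at h; exact Or.inr ⟨i, by omega, h⟩

/-- the rows of `A` and `B` agree on the set `M` for the first `k` digits -/
def indc (A B M : Nat) : Nat → Nat → Bool
  | 0, _ => true
  | k + 1, p =>
    bif Nat.beq (Nat.land (row A (Nat.mod p (nat_lit 32))) M) (row B (Nat.mod p (nat_lit 32))) then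
      indc A B M k (Nat.div p (nat_lit 32))
    else false

theorem indc_spec (A B M : Nat) : ∀ k p, indc A B M k p = true →
    ∀ i, i < k → Nat.land (row A (dg p i)) M = row B (dg p i) := by
  intro k
  induction k with
  | zero => intro p _ i hi; exact absurd hi (by omega)
  | succ k ih =>
    intro p h i hi
    rw [indc] at h
    have hdiv : Nat.div p 32 = p / 32 := rfl
    have hmod : Nat.mod p 32 = dg p 0 := (dg_zero p).symm
    rw [hdiv, hmod] at h
    cases h1 : Nat.beq (Nat.land (row A (dg p 0)) M) (row B (dg p 0))
    · rw [h1, cond_false] at h; simp at h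
    · rw [h1, cond_true] at h
      cases i with
      | zero => exact Nat.eq_of_beq_eq_true h1
      | succ i => rw [dg_succ]; exact ih _ h i (by omega)

/-- the matrix `A` contains the graph with the matrix `B` -/
def indA (A B k p : Nat) : Bool :=
  bif Nat.beq A B then true else indc A B (msk k p (nat_lit 0)) k p

/-- the matrix `A` on `0, ..., m - 1` contains the state `c` at the digits of `p` -/
def refc (m A c p : Nat) (s : List Nat) : Option (List Nat) :=
  bif injc m (Nat.mod c (nat_lit 32)) p (nat_lit 0) then
    bif indA A (relab (nat_lit 64) (Nat.div c (nat_lit 32)) p (nat_lit 0))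
      (Nat.mod c (nat_lit 32)) p then some s else none
  else none

/-- the end of a branch: the forest, or one of the first `k` states -/
def leaf (S K : Nat) (T : Tr) (k m A : Nat) : List Nat → Option (List Nat)
  | [] => none
  | q :: s =>
    bif Nat.beq (Nat.mod q (nat_lit 2)) (nat_lit 0) then
      bif isF A m K (Nat.div q (nat_lit 2)) (nat_lit 0) (nat_lit 0) S then some s else none
    else bif Nat.blt (Nat.mod (Nat.div q (nat_lit 2)) (nat_lit 65536)) k then
      refc m A (T.get (Nat.mod (Nat.div q (nat_lit 2)) (nat_lit 65536)))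
        (Nat.div (Nat.div q (nat_lit 2)) (nat_lit 65536)) s
    else none

/-- all extensions of a state without vertices of small degree -/
def ext (S K : Nat) (T : Tr) (k m A : Nat) (s : List Nat) : Option (List Nat) :=
  run (fun A' s' => bif Nat.beq (row A' m) (nat_lit 0) then some s'
    else leaf S K T k (Nat.succ m) A' s') A m (ballm A m m) m m (nat_lit 0) (nat_lit 0) s

/-- the check of a state with the matrix `A` -/
def stateA (S K : Nat) (T : Tr) (k m A : Nat) : List Nat → Option (List Nat)
  | [] => none
  | v :: s =>
    bif Nat.ble (nat_lit 31) m then none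
    else bif Nat.beq m (nat_lit 0) then none
    else bif Nat.blt v m then
      bif Nat.ble (cnt (row A v) m) (nat_lit 2) then
        run (leaf S K T k (Nat.succ m)) A m (ballm A m m) v m (bit v)
          (bit (Nat.mul (nat_lit 32) v)) s
      else none
    else bif Nat.ble m (nat_lit 17) then ext S K T k m A s else none

/-- the check of the state `c` -/
def state (S K : Nat) (T : Tr) (k c : Nat) (s : List Nat) : Option (List Nat) :=
  bif good (Nat.mod c (nat_lit 32)) (nat_lit 64) (Nat.div c (nat_lit 32)) then
    stateA S K T k (Nat.mod c (nat_lit 32)) (matA (Nat.div c (nat_lit 32))) s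
  else none

/-- the check of `n` states -/
def steps (S K : Nat) (T : Tr) : Nat → Nat → List Nat → Option (List Nat)
  | 0, _, s => some s
  | n + 1, k, s =>
    Option.bind (state S K T k (T.get k) s) fun s' => steps S K T n (Nat.succ k) s'

/-- no entries are left -/
def fin : Option (List Nat) → Bool
  | some [] => true
  | _ => false


section
variable {V : Type} {R : V → V → Prop}

/-- graphs without circuits of length at most four, without vertices of degree one or two, and with
at least 18 vertices in each component -/
structure HypG (R : V → V → Prop) : Prop where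
  base : ∃ K0, Hyp R K0
  big : ∀ T : List V, T ≠ [] → (∀ x ∈ T, ∃ y, R x y) → (∀ x ∈ T, ∀ y, R x y → y ∈ T) →
    18 ≤ T.length

/-- there is an induced copy of the linear forest on `0, ..., K - 1` with the edges `i, i + 1` for
the bits `i` of `S`, and its vertices are not isolated -/
def Has (R : V → V → Prop) (S K : Nat) : Prop :=
  ∃ p : Fin K → V, Function.Injective p ∧ (∀ i, ∃ y, R (p i) y) ∧
    ∀ i j : Fin K, i < j → (R (p i) (p j) ↔ (i.val + 1 = j.val ∧ S.testBit i.val = true))

/-- the state does not occur -/
def Bad (R : V → V → Prop) (c : Nat) : Prop :=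
  good (c % 32) 64 (c / 32) = true ∧ ∀ φ : Nat → V, ¬ Emb R (c % 32) (matA (c / 32)) φ

theorem run_step {K : Nat} (hR : Hyp R K) {m A : Nat} {φ : Nat → V} (he : Emb R m A φ)
    (hm : m < 31) (g : Nat → List Nat → Option (List Nat)) (w : V) (v N0 S0 : Nat)
    (s o : List Nat) (hw : ∀ i, i < m → φ i ≠ w) (hb : ∃ b, R w b)
    (hex : ∃ i, i < m ∧ R w (φ i)) (hN0 : ∀ j, N0.testBit j = true ↔ v < m ∧ j = v)
    (hv : v < m → R w (φ v))
    (hS0 : ∀ x, S0.testBit x = true ↔ (x % 32 = 0 ∧ N0.testBit (x / 32) = true))
    (hrun : run g A m (ballm A m m) v m N0 S0 s = some o) :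
    ∃ A' s' o' φ', Emb R (m + 1) A' φ' ∧ row A' m ≠ 0 ∧ g A' s' = some o' := by
  classical
  set T := Nat.ofBits (fun i : Fin m => decide (R w (φ i))) with hT
  have hTb : ∀ i, T.testBit i = true ↔ i < m ∧ R w (φ i) := by
    intro i
    by_cases h3 : i < m
    · rw [hT, Nat.testBit_ofBits_lt _ _ h3, decide_eq_true_eq]
      exact ⟨fun h => ⟨h3, h⟩, fun h => h.2⟩
    · rw [hT, Nat.testBit_ofBits_ge _ _ (by omega)]
      constructor
      · intro h; simp at h
      · intro h; exact absurd h.1 h3
  have hTo : ∀ i, m ≤ i → T.testBit i = false := by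
    intro i hi
    rw [← Bool.not_eq_true, hTb]
    omega
  have hrowbit : ∀ i j, j < m → ((row A i).testBit j = true ↔ A.testBit (32 * i + j) = true) := by
    intro i j hj
    rw [row_bit]
    have : j < 32 := by omega
    simp [this]
  obtain ⟨Sp', s', out', hS', hs'⟩ := run_complete g A m (ballm A m m) v T hTo
    (by
      intro i j hi hj hij h1 h2
      rw [← Bool.not_eq_true]
      intro h3
      obtain ⟨h4, h5⟩ := (hTb i).1 h1
      obtain ⟨h6, h7⟩ := (hTb j).1 h2
      rw [row_bit] at h3
      have hj32 : j < 32 := by omega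
      simp only [hj32, decide_true, Bool.true_and] at h3
      rw [ballm_bit A m m i j hi hj32 (by
        intro i j hj
        rw [row_bit]
        have : ¬ j < 32 := by omega
        simp [this]), Bool.or_eq_true] at h3
      rcases h3 with h8 | h8
      · exact hR.tri w (φ i) (φ j) h5 ((he.adj i j h4 h6).2 ((hrowbit i j h6).1 h8))
          (hR.symm _ _ h7)
      · obtain ⟨k, h8, h9, h10⟩ := orRows_bit _ _ _ _ h8
        exact hR.four w (φ i) (φ k) (φ j) (fun h => hw k h8 h.symm)
          (fun h => hij (he.inj i j h4 h6 h)) h5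
          ((he.adj i k h4 h8).2 ((hrowbit i k h8).1 h9))
          ((he.adj k j h8 h6).2 ((hrowbit k j h6).1 h10)) (hR.symm _ _ h7))
    m N0 S0 s o le_rfl
    (by
      intro j
      rw [Bool.eq_iff_iff, hN0, Bool.and_eq_true, hTb, Bool.or_eq_true, decide_eq_true_eq,
        decide_eq_true_eq]
      constructor
      · rintro ⟨h3, rfl⟩; exact ⟨⟨h3, hv h3⟩, Or.inr rfl⟩
      · rintro ⟨⟨h3, h4⟩, h5 | rfl⟩
        · omega
        · exact ⟨h3, rfl⟩)
    hS0 hrun
  have he' := he.extend hR hm hw (N := T) (Sp := Sp') (fun i hi => by
    rw [hTb]; exact ⟨fun h => h.2, fun h => ⟨hi, h⟩⟩) hTo hb hS'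
  have hrow : row (Pool.Agent.R140.PK.extend A m T Sp') m ≠ 0 := by
    obtain ⟨i, hi, hi'⟩ := hex
    intro h0
    have h3 : (row (Pool.Agent.R140.PK.extend A m T Sp') m).testBit i = true := by
      rw [row_bit, Bool.and_eq_true, decide_eq_true_eq]
      refine ⟨by omega, ?_⟩
      rw [← he'.adj m i (by omega) (by omega)]
      rw [Function.update_self, Function.update_of_ne (by omega)]
      exact hi'
    rw [h0, Nat.zero_testBit] at h3
    simp at h3
  exact ⟨_, s', out', _, he', hrow, hs'⟩

theorem relab_emb {m m' A c p : Nat} {φ : Nat → V} (he : Emb R m A φ) (hm : m ≤ 32)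
    (hm' : m' < 32)
    (hg : good m' 64 c = true) (hi : injc m m' p 0 = true)
    (h : indA A (relab 64 c p 0) m' p = true) : Emb R m' (matA c) (fun i => φ (dg p i)) := by
  obtain ⟨h1, h2⟩ := injc_spec m m' p 0 (fun _ => False) (fun z => by simp) hi
  have hgood := good_spec m' 64 c hg
  have hinj : ∀ i j, i < m' → j < m' → dg p i = dg p j → i = j := by
    intro i j hi hj hij
    rcases lt_trichotomy i j with h3 | h3 | h3
    · exact absurd hij (h2 i j h3 hj)
    · exact h3
    · exact absurd hij.symm (h2 j i h3 hi)
  have hlt : ∀ i, i < m' → dg p i < 32 := fun i hi => lt_of_lt_of_le (h1 i hi).1 hm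
  have hmat : ∀ z, (matA c).testBit z = true ↔ ∃ d ∈ digs 64 c, z = 32 * d.1 + d.2 ∨
      z = 32 * d.2 + d.1 := by
    intro z
    have h3 : matA c = relab 64 c idp 0 := rfl
    rw [h3, relab_bit, Nat.zero_testBit]
    constructor
    · rintro (h4 | ⟨d, hd, h4⟩)
      · simp at h4
      · obtain ⟨a, b⟩ := hgood d hd
        rw [idp_dg _ (by omega), idp_dg _ (by omega)] at h4
        exact ⟨d, hd, h4⟩
    · rintro ⟨d, hd, h4⟩
      obtain ⟨a, b⟩ := hgood d hd
      refine Or.inr ⟨d, hd, ?_⟩
      rw [idp_dg _ (by omega), idp_dg _ (by omega)]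
      exact h4
  have hB : ∀ z, (relab 64 c p 0).testBit z = true ↔ ∃ d ∈ digs 64 c,
      z = 32 * dg p d.1 + dg p d.2 ∨ z = 32 * dg p d.2 + dg p d.1 := by
    intro z
    rw [relab_bit, Nat.zero_testBit]
    simp
  have hAB : ∀ i j, i < m' → j < m' → (A.testBit (32 * dg p i + dg p j) = true ↔
      (relab 64 c p 0).testBit (32 * dg p i + dg p j) = true) := by
    intro i j hi hj
    unfold indA at h
    cases h3 : Nat.beq A (relab 64 c p 0)
    · rw [h3, cond_false] at h
      have h4 := indc_spec A _ _ m' p h i hi
      have h5 : (Nat.land (row A (dg p i)) (msk m' p 0)).testBit (dg p j) =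
          (row (relab 64 c p 0) (dg p i)).testBit (dg p j) := by rw [h4]
      have h6 : (msk m' p 0).testBit (dg p j) = true :=
        (msk_bit _ _ _ _).2 (Or.inr ⟨j, hj, rfl⟩)
      rw [land_bit, h6, Bool.and_true, row_bit, row_bit] at h5
      simp only [hlt j hj, decide_true, Bool.true_and] at h5
      rw [h5]
    · have h4 : A = relab 64 c p 0 := Nat.eq_of_beq_eq_true h3
      rw [← h4]
  refine ⟨?_, ?_, ?_, ?_⟩
  · intro i j hi hj
    rw [he.adj _ _ (h1 i hi).1 (h1 j hj).1, hAB i j hi hj, hB, hmat]
    have l1 := hlt i hi
    have l2 := hlt j hj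
    constructor
    · rintro ⟨d, hd, h3⟩
      obtain ⟨a, b⟩ := hgood d hd
      have l3 := hlt _ a
      have l4 := hlt _ b
      refine ⟨d, hd, ?_⟩
      rcases h3 with h3 | h3
      · have e1 : i = d.1 := hinj _ _ hi a (by omega)
        have e2 : j = d.2 := hinj _ _ hj b (by omega)
        left; rw [e1, e2]
      · have e1 : i = d.2 := hinj _ _ hi b (by omega)
        have e2 : j = d.1 := hinj _ _ hj a (by omega)
        right; rw [e1, e2]
    · rintro ⟨d, hd, h3⟩
      obtain ⟨a, b⟩ := hgood d hd
      refine ⟨d, hd, ?_⟩
      rcases h3 with h3 | h3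
      · have e1 : i = d.1 := by omega
        have e2 : j = d.2 := by omega
        left; rw [e1, e2]
      · have e1 : i = d.2 := by omega
        have e2 : j = d.1 := by omega
        right; rw [e1, e2]
  · intro i j hij hj
    rw [← Bool.not_eq_true, hmat]
    rintro ⟨d, hd, h3⟩
    obtain ⟨a, b⟩ := hgood d hd
    rcases h3 with h3 | h3 <;> omega
  · intro i j hi hj hij
    exact hinj i j hi hj (he.inj _ _ (h1 i hi).1 (h1 j hj).1 hij)
  · intro i hi
    exact he.nbr _ (h1 i hi).1

theorem leaf_sound {S K k m : Nat} (hR : HypG R) (hF : ¬ Has R S K) {T : Tr}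
    (hn : ∀ j, j < k → Bad R (T.get j))
    (hm : m ≤ 32) {A : Nat} {φ : Nat → V} (he : Emb R m A φ) {s o : List Nat}
    (h : leaf S K T k m A s = some o) : False := by
  obtain ⟨K0, hH⟩ := hR.base
  cases s with
  | nil => simp [leaf] at h
  | cons q s =>
    rw [leaf] at h
    cases h1 : Nat.beq (Nat.mod q 2) 0
    · rw [h1, cond_false] at h
      set j := Nat.mod (Nat.div q 2) 65536 with hj
      set p := Nat.div (Nat.div q 2) 65536 with hp
      cases h2 : Nat.blt j k
      · rw [h2, cond_false] at h; simp at h
      · rw [h2, cond_true, refc] at h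
        obtain ⟨h6, h7⟩ := hn j (Nat.le_of_ble_eq_true h2)
        cases h3 : injc m (Nat.mod (T.get j) 32) p 0
        · rw [h3, cond_false] at h; simp at h
        · rw [h3, cond_true] at h
          cases h4 : indA A (relab 64 (Nat.div (T.get j) 32) p 0) (Nat.mod (T.get j) 32) p
          · rw [h4, cond_false] at h; simp at h
          · exact h7 _ (relab_emb he hm (Nat.mod_lt _ (by omega)) h6 h3 h4)
    · rw [h1, cond_true] at h
      cases h2 : isF A m K (Nat.div q 2) 0 0 S
      · rw [h2, cond_false] at h; simp at h
      · obtain ⟨h3, -, h4⟩ := isF_spec A m K (Nat.div q 2) 0 0 S (fun _ => False)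
          (fun _ => False) (fun z => by simp) (fun z => by simp) h2
        refine hF ⟨fun i => φ (dg (Nat.div q 2) i.val), ?_, ?_, ?_⟩
        · intro i j hij
          have h5 := he.inj _ _ (h3 i.val i.2) (h3 j.val j.2) hij
          rcases lt_trichotomy i j with h6 | h6 | h6
          · exact absurd h5 (h4 i.val j.val h6 j.2).1
          · exact h6
          · exact absurd h5.symm (h4 j.val i.val h6 i.2).1
        · intro i
          exact he.nbr _ (h3 i.val i.2)
        · intro i j hij
          obtain ⟨a1, a2⟩ := h4 i.val j.val hij j.2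
          rw [← a2]
          have h7 : dg (Nat.div q 2) i.val < 32 := Nat.mod_lt _ (by omega)
          rw [row_bit]
          simp only [h7, decide_true, Bool.true_and]
          rw [← he.adj _ _ (h3 j.val j.2) (h3 i.val i.2)]
          exact ⟨hH.symm _ _, hH.symm _ _⟩

theorem stateA_sound {S K k m A : Nat} (hR : HypG R) (hF : ¬ Has R S K) {T : Tr}
    (hn : ∀ j, j < k → Bad R (T.get j)) {s o : List Nat} (h : stateA S K T k m A s = some o)
    (φ : Nat → V) : ¬ Emb R m A φ := by
  classical
  obtain ⟨K0, hH⟩ := hR.base
  intro he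
  cases s with
  | nil => simp [stateA] at h
  | cons v s =>
    rw [stateA] at h
    cases hm31 : Nat.ble 31 m
    swap
    · rw [hm31] at h; simp at h
    rw [hm31] at h
    simp only [cond_false] at h
    have hm : m < 31 := by
      by_contra hh
      rw [Nat.ble_eq_true_of_le (by omega)] at hm31
      simp at hm31
    cases hm0 : Nat.beq m 0
    swap
    · rw [hm0] at h; simp at h
    rw [hm0] at h
    simp only [cond_false] at h
    have h0 : 0 < m := by
      rcases Nat.eq_zero_or_pos m with hh | hh
      · subst hh; simp at hm0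
      · exact hh
    cases h2 : Nat.blt v m
    swap
    · rw [h2] at h
      simp only [cond_true] at h
      have h2' : v < m := Nat.le_of_ble_eq_true h2
      cases h3 : Nat.ble (cnt (row A v) m) 2
      · rw [h3] at h; simp at h
      rw [h3] at h
      simp only [cond_true] at h
      have h3' : ((List.range m).filter (fun j => (row A v).testBit j)).length ≤ 2 := by
        rw [← cnt_eq]
        exact Nat.le_of_ble_eq_true h3
      obtain ⟨b, hb⟩ := he.nbr v h2'
      obtain ⟨w, hw1, hw2⟩ := hH.deg _ _ hb
        (((List.range m).filter (fun j => (row A v).testBit j)).map φ)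
        (by rw [List.length_map]; exact h3')
      obtain ⟨A', s', o', φ', e1, -, e3⟩ := run_step hH he hm (leaf S K T k (Nat.succ m)) w v
        _ _ _ _
        (by
          rintro i hi rfl
          apply hw2
          rw [List.mem_map]
          refine ⟨i, ?_, rfl⟩
          rw [List.mem_filter, List.mem_range]
          refine ⟨hi, ?_⟩
          rw [row_bit, Bool.and_eq_true, decide_eq_true_eq]
          exact ⟨by omega, (he.adj _ _ h2' hi).1 hw1⟩)
        ⟨_, hH.symm _ _ hw1⟩ ⟨v, h2', hH.symm _ _ hw1⟩
        (by
          intro j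
          rw [bit_bit, decide_eq_true_eq]
          constructor
          · rintro rfl; exact ⟨h2', rfl⟩
          · rintro ⟨_, rfl⟩; rfl)
        (fun _ => hH.symm _ _ hw1)
        (by
          intro x
          have hmul : Nat.mul 32 v = 32 * v := rfl
          rw [bit_bit, bit_bit, decide_eq_true_eq, decide_eq_true_eq, hmul]
          constructor
          · intro h; exact ⟨by omega, by omega⟩
          · rintro ⟨h, h'⟩; omega) h
      exact leaf_sound hR hF hn (by omega) e1 e3
    rw [h2] at h
    simp only [cond_false] at h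
    cases h3 : Nat.ble m 17
    · rw [h3] at h; simp at h
    rw [h3] at h
    simp only [cond_true] at h
    have h3' : m ≤ 17 := Nat.le_of_ble_eq_true h3
    by_cases hcl : ∀ x ∈ (List.range m).map φ, ∀ y, R x y → y ∈ (List.range m).map φ
    · have h4 := hR.big ((List.range m).map φ) (by
        intro h5
        have h6 := congrArg List.length h5
        simp at h6
        omega) (by
        intro x hx
        obtain ⟨i, hi, rfl⟩ := List.mem_map.1 hx
        exact he.nbr i (List.mem_range.1 hi)) hcl
      rw [List.length_map, List.length_range] at h4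
      omega
    · push Not at hcl
      obtain ⟨x, hx, w, hxw, hw⟩ := hcl
      obtain ⟨i, hi, rfl⟩ := List.mem_map.1 hx
      rw [List.mem_range] at hi
      obtain ⟨A', s', o', φ', e1, e2, e3⟩ := run_step hH he hm
        (fun A' s' => bif Nat.beq (row A' m) 0 then some s' else leaf S K T k (Nat.succ m) A' s')
        w m _ _ _ _
        (by
          rintro j hj rfl
          exact hw (List.mem_map.2 ⟨j, List.mem_range.2 hj, rfl⟩))
        ⟨_, hH.symm _ _ hxw⟩ ⟨i, hi, hH.symm _ _ hxw⟩
        (by
          intro j
          rw [Nat.zero_testBit]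
          constructor
          · intro h; simp at h
          · rintro ⟨h, _⟩; omega)
        (fun h => absurd h (lt_irrefl _))
        (by
          intro x
          rw [Nat.zero_testBit, Nat.zero_testBit]
          simp) h
      cases h4 : Nat.beq (row A' m) 0
      · rw [h4, cond_false] at e3
        exact leaf_sound hR hF hn (by omega) e1 e3
      · exact e2 (Nat.eq_of_beq_eq_true h4)

theorem state_sound {S K k c : Nat} (hR : HypG R) (hF : ¬ Has R S K) {T : Tr}
    (hn : ∀ j, j < k → Bad R (T.get j)) {s o : List Nat} (h : state S K T k c s = some o) :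
    Bad R c := by
  unfold state at h
  cases h1 : good (Nat.mod c 32) 64 (Nat.div c 32)
  · rw [h1, cond_false] at h; simp at h
  · rw [h1, cond_true] at h
    exact ⟨h1, fun φ => stateA_sound hR hF hn h φ⟩

/-- **Soundness.** If `n` states are checked, they do not occur. -/
theorem steps_sound {S K : Nat} (hR : HypG R) (hF : ¬ Has R S K) {T : Tr} :
    ∀ (n k : Nat) (s o : List Nat), (∀ j, j < k → Bad R (T.get j)) →
      steps S K T n k s = some o → ∀ j, j < k + n → Bad R (T.get j) := by
  intro n
  induction n with
  | zero => intro k s o hn _ j hj; exact hn j (by omega)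
  | succ n ih =>
    intro k s o hn h
    rw [steps] at h
    obtain ⟨s1, h1, h2⟩ := Option.bind_eq_some_iff.1 h
    have h3 := state_sound hR hF hn h1
    intro j hj
    refine ih (Nat.succ k) s1 o (fun i hi => ?_) h2 j (by omega)
    rcases Nat.lt_or_ge i k with h4 | h4
    · exact hn i h4
    · have : i = k := by omega
      rw [this]; exact h3

theorem main_sound {S K : Nat} (hR : HypG R) (hF : ¬ Has R S K) {T : Tr}
    (n k : Nat) (s : List Nat) (hn : ∀ j, j < k → Bad R (T.get j))
    (h : fin (steps S K T n k s) = true) : ∀ j, j < k + n → Bad R (T.get j) := by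
  cases h1 : steps S K T n k s with
  | none => rw [h1] at h; simp [fin] at h
  | some o => exact steps_sound hR hF n k s o hn h1

/-- the states before the `k`-th one and `n` more do not occur -/
def Sound (S K : Nat) (T : Tr) (k n : Nat) : Prop :=
  ∀ {V : Type} (R : V → V → Prop), HypG R → ¬ Has R S K →
    (∀ j, j < k → Bad R (T.get j)) → ∀ j, j < k + n → Bad R (T.get j)

theorem sound_of {S K : Nat} {T : Tr} {k n : Nat} {s : List Nat}
    (h : fin (steps S K T n k s) = true) : Sound S K T k n :=
  fun _ hR hF hn => main_sound hR hF n k s hn h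

theorem Sound.trans {S K : Nat} {T : Tr} {k n k' n' : Nat} (h : Sound S K T k n)
    (h' : Sound S K T k' n') (hk : k' = k + n) : Sound S K T k (n + n') := by
  intro V R hR hF hn j hj
  subst hk
  exact h' R hR hF (h R hR hF hn) j (by omega)

/-- the matrix of a forest -/
def chk (S K e : Nat) : Bool :=
  Nat.blt 0 K && Nat.ble K 31 && good K 64 e && (List.range K).all fun i => (List.range K).all fun j =>
    (matA e).testBit (32 * i + j) ==
      ((decide (i + 1 = j) && S.testBit i) || (decide (j + 1 = i) && S.testBit j))

theorem emb_of_has {S K e : Nat} (hR : HypG R) (h : Has R S K) (hc : chk S K e = true) :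
    ∃ φ : Nat → V, Emb R K (matA e) φ := by
  obtain ⟨K0, hH⟩ := hR.base
  obtain ⟨p, h1, h2, h3⟩ := h
  unfold chk at hc
  rw [Bool.and_eq_true, Bool.and_eq_true, Bool.and_eq_true] at hc
  obtain ⟨⟨⟨hK0, hK⟩, hg⟩, hc⟩ := hc
  have h0 : 0 < K := Nat.le_of_ble_eq_true hK0
  have hK' : K ≤ 31 := Nat.le_of_ble_eq_true hK
  have hgood := good_spec K 64 e hg
  rw [List.all_eq_true] at hc
  have hc' : ∀ i j, i < K → j < K → (matA e).testBit (32 * i + j) =
      ((decide (i + 1 = j) && S.testBit i) || (decide (j + 1 = i) && S.testBit j)) := by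
    intro i j hi hj
    have h4 := hc i (List.mem_range.2 hi)
    rw [List.all_eq_true] at h4
    exact eq_of_beq (h4 j (List.mem_range.2 hj))
  refine ⟨fun i => if hi : i < K then p ⟨i, hi⟩ else p ⟨0, h0⟩, ?_, ?_, ?_, ?_⟩
  · intro i j hi hj
    simp only [hi, hj, dif_pos]
    rw [hc' i j hi hj]
    rcases lt_trichotomy i j with h4 | h4 | h4
    · rw [h3 ⟨i, hi⟩ ⟨j, hj⟩ h4]
      have h5 : ¬ j + 1 = i := by omega
      simp [h5]
    · subst h4
      have h5 : ¬ i + 1 = i := by omega
      simp only [h5, decide_false, Bool.false_and, Bool.or_self, Bool.false_eq_true, iff_false]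
      exact hH.irr _
    · have h6 : R (p ⟨i, hi⟩) (p ⟨j, hj⟩) ↔ R (p ⟨j, hj⟩) (p ⟨i, hi⟩) :=
        ⟨hH.symm _ _, hH.symm _ _⟩
      rw [h6, h3 ⟨j, hj⟩ ⟨i, hi⟩ h4]
      have h5 : ¬ i + 1 = j := by omega
      simp [h5]
  · intro i j hij hj
    rw [← Bool.not_eq_true]
    have h3 : matA e = relab 64 e idp 0 := rfl
    rw [h3, relab_bit, Nat.zero_testBit]
    rintro (h4 | ⟨d, hd, h4⟩)
    · simp at h4
    · obtain ⟨a, b⟩ := hgood d hd
      rw [idp_dg _ (by omega), idp_dg _ (by omega)] at h4
      rcases h4 with h4 | h4 <;> omega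
  · intro i j hi hj hij
    simp only [hi, hj, dif_pos] at hij
    exact congrArg Fin.val (h1 hij)
  · intro i hi
    simp only [hi, dif_pos]
    exact h2 _

end

end Pool.Agent.U881.LF
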