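import Pool.Agent.U881.LF.Main
import Pool.Agent.R140.PK.Or

set_option autoImplicit false
set_option linter.unusedSectionVars false

/-!
# Even subgraphs and oriented covers of graphs without induced linear forests
-/

namespace Pool.Agent.U881.LF

open Finset Relation Pool.Agent.TH362.TF Pool.Agent.TH362.TF.Four Pool.Agent.R890.FF Pool.Agent
open Pool.Agent.R140.PK

section
variable {V E : Type} [Fintype V] [DecidableEq V] [Fintype E] [DecidableEq E]

theorem cov_gen {M : Nat} (hM : GoodM M) (s t : E → V) (hn : N1 s t univ)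
    (h : ¬ Has (Nb s t univ) M 9) : Cov s t := by
  classical
  by_contra hcon
  obtain ⟨π, hπ, hMi⟩ := exists_MinP Cov s t hn hcon
  rcases mainM hMi.n1 hM (fun h' => h (lift_has hπ h')) with h1 | h1
  · exact hMi.np (cov_of_nz h1)
  · obtain ⟨κ, c, hc⟩ := hMi.pet h1 (fun A1 A2 a1 a2 b1 b2 b3 b4 b5 b6 b7 =>
      cov_sum A1 A2 a1 a2 b1 b2 b3 b4 b5 b6 b7)
    obtain ⟨h2, h3⟩ := hc.conn
    exact hMi.np (cov_pet hc (hMi.mn _ _ (mem_image_of_mem _ (mem_univ _)) h2 h3))

theorem fv_gen {M : Nat} (hM : GoodM M) (s t : E → V) (hn : N1 s t univ)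
    (h : ¬ Has (Nb s t univ) M 9) : Fv s t := by
  classical
  by_contra hcon
  obtain ⟨π, hπ, hMi⟩ := exists_MinP Fv s t hn hcon
  rcases mainM hMi.n1 hM (fun h' => h (lift_has hπ h')) with h1 | h1
  · exact hMi.np (fv_of_nz h1)
  · obtain ⟨κ, c, hc⟩ := hMi.pet h1 (fun A1 A2 a1 a2 b1 b2 b3 b4 b5 b6 b7 =>
      fv_sum A1 A2 a1 a2 b1 b2 b3 b4 b5 b6 b7)
    obtain ⟨h2, h3⟩ := hc.conn
    exact hMi.np (fv_pet hc (hMi.mn _ _ (mem_image_of_mem _ (mem_univ _)) h2 h3))

end

/-- the simple graph version -/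
theorem simple_gen (F : SimpleGraph (Fin 9)) (hF : F ≤ SimpleGraph.pathGraph 9)
    (h4 : 4 ≤ F.edgeSet.ncard)
    (h3 : ∃ a b c, a ≠ c ∧ F.Adj a b ∧ F.Adj b c)
    (hT : ¬ ∃ q : Fin 8 → Fin 9, Function.Injective q ∧
      ∀ i j, i < j → (F.Adj (q i) (q j) ↔ (i.val + 1 = j.val ∧ i.val ≠ 2 ∧ i.val ≠ 5)))
    {V : Type} [Fintype V] (G : SimpleGraph V)
    (hb : ∀ u v : V, G.Adj u v → (G.deleteEdges {s(u, v)}).Reachable u v)
    (hp : IsEmpty (F ↪g G)) :
    ∃ (E : Type) (_ : Fintype E) (_ : DecidableEq V) (K : H160R2.HF.OrGraph V E),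
      H23.PS.IsOrientation G K ∧ H23.PS.FiveClasses K := by
  classical
  have hpr : ∀ e : G.edgeSet, ∃ a : V × V, e.1 = s(a.1, a.2) := by
    rintro ⟨e, he⟩
    induction e with
    | _ a b => exact ⟨(a, b), rfl⟩
  choose pr hpr using hpr
  have hadj : ∀ e : G.edgeSet, G.Adj (pr e).1 (pr e).2 := by
    intro e
    have h1 := e.2
    rw [hpr e, SimpleGraph.mem_edgeSet] at h1
    exact h1
  have hex : ∀ u v, G.Adj u v → ∃ e : G.edgeSet, e.1 = s(u, v) := fun u v h =>
    ⟨⟨s(u, v), h⟩, rfl⟩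
  have hends : ∀ (e : G.edgeSet) (u v : V), e.1 = s(u, v) ↔
      (((pr e).1 = u ∧ (pr e).2 = v) ∨ ((pr e).2 = u ∧ (pr e).1 = v)) := by
    intro e u v
    rw [hpr e, Sym2.eq_iff]
    tauto
  refine ⟨G.edgeSet, inferInstance, inferInstance, ⟨fun e => (pr e).1, fun e => (pr e).2⟩,
    ⟨hadj, ?_⟩, ?_⟩
  · intro u v huv
    obtain ⟨e, he⟩ := hex u v huv
    refine ⟨e, (hends e u v).1 he, ?_⟩
    intro e' he'
    apply Subtype.ext
    rw [he]
    exact (hends e' u v).2 he'
  · rw [← fv_iff]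
    refine fv_gen (goodM_of F hF h4 h3 hT) _ _ ?_ (no_has_of F hF ?_)
    · intro x hx
      obtain ⟨e, he⟩ := card_eq_one.1 hx
      have hmem : e ∈ cut (fun e => (pr e).1) (fun e => (pr e).2) univ x := by
        rw [he]; exact mem_singleton_self e
      have h1 : x (pr e).1 ≠ x (pr e).2 := (mem_filter.1 hmem).2
      apply h1
      have key : ∀ a b, (G.deleteEdges {s((pr e).1, (pr e).2)}).Reachable a b → x a = x b := by
        rintro a b ⟨w⟩
        induction w with
        | nil => rfl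
        | cons hadj' _ ih =>
          rename_i a' b' c'
          refine Eq.trans ?_ ih
          rw [SimpleGraph.deleteEdges_adj] at hadj'
          obtain ⟨e', he'⟩ := hex _ _ hadj'.1
          by_contra hne
          have h2 : e' ∈ cut (fun e => (pr e).1) (fun e => (pr e).2) univ x := by
            refine mem_filter.2 ⟨mem_univ _, ?_⟩
            rcases (hends e' _ _).1 he' with ⟨h3, h4⟩ | ⟨h3, h4⟩
            · show x (pr e').1 ≠ x (pr e').2
              rw [h3, h4]; exact hne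
            · show x (pr e').1 ≠ x (pr e').2
              rw [h3, h4]; exact Ne.symm hne
          rw [he, mem_singleton] at h2
          apply hadj'.2
          rw [Set.mem_singleton_iff, ← hpr e, ← he', h2]
      exact key _ _ (hb _ _ (hadj e))
    · rintro ⟨p, h1, h2⟩
      refine hp.false ⟨⟨p, h1⟩, ?_⟩
      intro i j
      show G.Adj (p i) (p j) ↔ F.Adj i j
      by_cases hij : i = j
      · subst hij
        simp
      · rw [← h2 i j hij]
        constructor
        · intro h3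
          obtain ⟨e, he⟩ := hex _ _ h3
          refine ⟨e, ?_⟩
          rcases (hends e _ _).1 he with ⟨h4, h5⟩ | ⟨h4, h5⟩
          · exact Or.inl ⟨h4, h5⟩
          · exact Or.inr ⟨h5, h4⟩
        · rintro ⟨e, h3 | h3⟩
          · have h4 := hadj e
            rw [h3.1, h3.2] at h4
            exact h4
          · have h4 := hadj e
            rw [h3.1, h3.2] at h4
            exact h4.symm

end Pool.Agent.U881.LF
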