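import Pool.Agent.R140.PK.Lift
import Pool.Agent.U881.LF.Check

set_option autoImplicit false
set_option linter.unusedSectionVars false
set_option linter.unusedVariables false

/-!
# Induced linear forests in minimal contractions can be lifted
-/

namespace Pool.Agent.U881.LF

open Finset Relation Pool.Agent.TH362.TF Pool.Agent.TH362.TF.Four Pool.Agent.R890.FF
open Pool.Agent.R140.PK

variable {V E : Type} [Fintype V] [DecidableEq V] [DecidableEq E]

section
variable {s t : E → V} {S : Finset E}

theorem hypG_of (h : Mc s t S) : HypG (Nb s t S) := by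
  classical
  refine ⟨⟨Fintype.card V + 1, fun a b => nb_comm, fun a ha => ha.1 rfl, fun a b c => h.tri,
      fun a b c d => h.four, ?_, ?_⟩, ?_⟩
  · intro a b hab m hm
    have h1 : 0 < (univ.filter (Nb s t S a)).card :=
      card_pos.2 ⟨b, mem_filter.2 ⟨mem_univ _, hab⟩⟩
    have h2 := h.nb_ne_one a
    have h3 := h.nb_ne_two a
    have h4 : m.toFinset.card < (univ.filter (Nb s t S a)).card := by
      have := List.toFinset_card_le m
      omega
    obtain ⟨w, hw, hw'⟩ := Finset.exists_mem_notMem_of_card_lt_card h4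
    exact ⟨w, (mem_filter.1 hw).2, fun h => hw' (List.mem_toFinset.2 h)⟩
  · intro p hp
    have := Fintype.card_le_of_injective p hp
    rw [Fintype.card_fin] at this
    omega
  · intro T hT0 hT1 hT2
    have h18 := h.odd18
    have hnb : ∀ y ∈ odd s t S, ∃ z, Nb s t S y z := by
      intro y hy
      rw [h.odd_nb y] at hy
      have h1 : 0 < (univ.filter (Nb s t S y)).card := by omega
      obtain ⟨z, hz⟩ := card_pos.1 h1
      exact ⟨z, (mem_filter.1 hz).2⟩
    obtain ⟨v, hv⟩ := List.exists_mem_of_ne_nil T hT0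
    obtain ⟨b, hb⟩ := hT1 v hv
    have hsub : odd s t S ⊆ T.toFinset := by
      intro y hy
      obtain ⟨z, hz⟩ := hnb y hy
      have h1 := h.one_comp hb hz
      rw [mem_comp] at h1
      rw [List.mem_toFinset]
      clear hz hy
      induction h1 with
      | refl => exact hv
      | tail hpq0 h2 ih =>
        rename_i p q
        by_cases hpq : q = p
        · rw [hpq]; exact ih
        · exact hT2 _ ih _ ⟨hpq, h2⟩
    have h1 := card_le_card hsub
    have h2 := List.toFinset_card_le T
    omega

/-- there is a vertex which is not isolated -/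
theorem has_one (h : Mc s t S) : Has (Nb s t S) 0 1 := by
  classical
  have h18 := h.odd18
  obtain ⟨v, hv⟩ : (odd s t S).Nonempty := card_pos.1 (by omega)
  rw [h.odd_nb v] at hv
  have h1 : 0 < (univ.filter (Nb s t S v)).card := by omega
  obtain ⟨z, hz⟩ := card_pos.1 h1
  refine ⟨fun _ => v, fun i j _ => Subsingleton.elim i j, fun _ => ⟨z, (mem_filter.1 hz).2⟩, ?_⟩
  intro i j hij
  exact absurd (Subsingleton.elim i j) (ne_of_lt hij)

/-- one forest gives another one -/
theorem step {W : Type} {R : W → W → Prop} (hR : HypG R) {S K S' K' e N : Nat} {T : Tr}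
    (h : Has R S' K')
    (hc : chk S' K' e = true) (hN : 0 < N) (hl : T.get (N - 1) = 32 * e + K') (hK : K' < 32)
    (cert : Sound S K T 0 N) : Has R S K := by
  by_contra hF
  have h1 := cert R hR hF (fun j hj => absurd hj (by omega)) (N - 1) (by omega)
  obtain ⟨φ, hφ⟩ := emb_of_has hR h hc
  rw [hl] at h1
  have h2 : (32 * e + K') % 32 = K' := by omega
  have h3 : (32 * e + K') / 32 = e := by omega
  unfold Bad at h1
  rw [h2, h3] at h1
  exact h1.2 φ hφ

end

/-- induced paths of a contraction can be lifted -/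
theorem lift_path' {s t : E → V} {S : Finset E} {π : V → V} (hπ : FC s t S π) {K : ℕ} (hK : 2 ≤ K)
    (q : Fin K → V) (hq : Function.Injective q)
    (hq' : ∀ i j : Fin K, i < j →
      (Nb (fun e => π (s e)) (fun e => π (t e)) S (q i) (q j) ↔ i.val + 1 = j.val)) :
    ∃ p : Fin K → V, Function.Injective p ∧ (∀ i, ∃ j, π (p i) = q j) ∧
      ∀ i j : Fin K, i < j → (Nb s t S (p i) (p j) ↔ i.val + 1 = j.val) := by
  classical
  set U : V → Prop := fun x => ∃ i, π x = q i with hU
  let Γ : SimpleGraph V :=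
    { Adj := fun u w => Nb s t S u w ∧ U u ∧ U w
      symm := ⟨fun u w h => ⟨nb_comm h.1, h.2.2, h.2.1⟩⟩
      loopless := ⟨fun u h => h.1.1 rfl⟩ }
  have hreach : ∀ (P : V → Prop), (∀ x, P x → U x) → ∀ u w, ReflTransGen (St s t S P) u w →
      Γ.Reachable u w := by
    intro P hP u w huw
    induction huw with
    | refl => exact SimpleGraph.Reachable.refl _
    | tail hab0 h2 ih =>
      rename_i a b
      obtain ⟨h3, h4, h5⟩ := h2
      by_cases hab : b = a
      · rw [hab]; exact ih
      · have : Γ.Adj a b := ⟨⟨hab, h3⟩, hP _ h4, hP _ h5⟩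
        exact ih.trans this.reachable
  have hedge : ∀ i : ℕ, ∀ hi : i + 1 < K, ∃ a b, π a = q ⟨i, by omega⟩ ∧ π b = q ⟨i + 1, hi⟩ ∧
      Γ.Adj a b := by
    intro i hi
    have h1 := (hq' ⟨i, by omega⟩ ⟨i + 1, hi⟩ (by simp)).2 rfl
    obtain ⟨hne, e, he, hE⟩ := h1
    rcases hE with ⟨h4, h5⟩ | ⟨h4, h5⟩
    · refine ⟨s e, t e, h4, h5, ⟨?_, e, he, Or.inl ⟨rfl, rfl⟩⟩, ⟨_, h4⟩, ⟨_, h5⟩⟩
      intro h6
      exact hne (by rw [← h4, ← h5]; exact congrArg π h6)
    · refine ⟨t e, s e, h5, h4, ⟨?_, e, he, Or.inr ⟨rfl, rfl⟩⟩, ⟨_, h5⟩, ⟨_, h4⟩⟩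
      intro h6
      exact hne (by rw [← h4, ← h5]; exact congrArg π h6)
  have hall : ∀ i : ℕ, ∀ hi : i < K, ∀ u w, π u = q ⟨0, by omega⟩ → π w = q ⟨i, hi⟩ →
      Γ.Reachable u w := by
    intro i
    induction i with
    | zero =>
      intro hi u w hu hw
      exact hreach _ (fun x hx => ⟨_, hx.trans hu⟩) u w (hπ u w (hu.trans hw.symm))
    | succ i ih =>
      intro hi u w hu hw
      obtain ⟨a, b, ha, hb, hab⟩ := hedge i hi
      refine ((ih (by omega) u a hu ha).trans hab.reachable).trans ?_
      exact hreach _ (fun x hx => ⟨_, hx.trans hb⟩) b w (hπ b w (hb.trans hw.symm))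
  have hlayer : ∀ u w (p : Γ.Walk u w) (i j : Fin K), π u = q i → π w = q j →
      j.val ≤ i.val + p.length := by
    intro u w p
    induction p with
    | nil =>
      intro i j hi hj
      have : i = j := hq (hi.symm.trans hj)
      subst this
      simp
    | cons hadj p ih =>
      rename_i a b c
      intro i j hi hj
      obtain ⟨h1, h2, k, hk⟩ := hadj
      have h3 := ih k j hk hj
      have h4 : k.val ≤ i.val + 1 := by
        rcases lt_trichotomy i k with h5 | h5 | h5
        · have h6 : Nb (fun e => π (s e)) (fun e => π (t e)) S (q i) (q k) := by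
            obtain ⟨hne, e, he, hE⟩ := h1
            refine ⟨fun h => absurd (hq h) (ne_of_gt h5), e, he, ?_⟩
            rcases hE with ⟨h4, h5⟩ | ⟨h4, h5⟩
            · exact Or.inl ⟨by rw [← hi]; exact congrArg π h4, by rw [← hk]; exact congrArg π h5⟩
            · exact Or.inr ⟨by rw [← hk]; exact congrArg π h4, by rw [← hi]; exact congrArg π h5⟩
          have := (hq' i k h5).1 h6
          omega
        · subst h5; omega
        · have : k.val < i.val := h5
          omega
      rw [SimpleGraph.Walk.length_cons]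
      omega
  obtain ⟨x0, _, hx0, _, hadj0⟩ := hedge 0 (by omega)
  obtain ⟨_, x1, _, hx1, _⟩ := hedge (K - 2) (by omega)
  have hx1' : π x1 = q ⟨K - 1, by omega⟩ := by
    rw [hx1]
    congr 1
    apply Fin.ext
    show K - 2 + 1 = K - 1
    omega
  obtain ⟨w, hw⟩ := (hall (K - 1) (by omega) x0 x1 hx0 hx1').exists_walk_length_eq_dist
  have hlen := hlayer x0 x1 w ⟨0, by omega⟩ ⟨K - 1, by omega⟩ hx0 hx1'
  have hlen' : K - 1 ≤ w.length := by simpa using hlen
  have hg := geo w hw
  have hUw : ∀ i, i ≤ w.length → U (w.getVert i) := by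
    intro i hi
    rcases Nat.eq_zero_or_pos i with rfl | hpos
    · rw [SimpleGraph.Walk.getVert_zero]; exact ⟨_, hx0⟩
    · obtain ⟨j, rfl⟩ : ∃ j, i = j + 1 := ⟨i - 1, by omega⟩
      exact (w.adj_getVert_succ (i := j) (by omega)).2.2
  refine ⟨fun i => w.getVert i.val, ?_, fun i => hUw _ (by omega), ?_⟩
  · intro i j hij
    have h1 := hg i.val (by omega)
    have h2 := hg j.val (by omega)
    have h3 : w.getVert i.val = w.getVert j.val := hij
    rw [h3, h2] at h1
    exact Fin.ext h1.symm
  · intro i j hij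
    have hi : i.val ≤ w.length := by omega
    have hj : j.val ≤ w.length := by omega
    have hij' : i.val < j.val := hij
    constructor
    · intro h1
      have h2 : Γ.Adj (w.getVert i.val) (w.getVert j.val) := ⟨h1, hUw _ hi, hUw _ hj⟩
      have h3 := SimpleGraph.dist_le ((w.take i.val).concat h2)
      rw [SimpleGraph.Walk.length_concat, SimpleGraph.Walk.take_length, hg _ hj] at h3
      omega
    · intro h1
      have h2 := (w.adj_getVert_succ (i := i.val) (by omega)).1
      have h3 : w.getVert j.val = w.getVert (i.val + 1) := by rw [h1]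
      show Nb s t S (w.getVert i.val) (w.getVert j.val)
      rw [h3]
      exact h2

/-- an edge between vertices with different images -/
theorem nb_map {s t : E → V} {S : Finset E} {π : V → V} {x y : V} (h : Nb s t S x y)
    (hxy : π y ≠ π x) : Nb (fun e => π (s e)) (fun e => π (t e)) S (π x) (π y) := by
  obtain ⟨_, e, he, hE⟩ := h
  refine ⟨hxy, e, he, ?_⟩
  rcases hE with ⟨h4, h5⟩ | ⟨h4, h5⟩
  · exact Or.inl ⟨congrArg π h4, congrArg π h5⟩
  · exact Or.inr ⟨congrArg π h4, congrArg π h5⟩

/-- induced linear forests of a contraction can be lifted -/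
theorem lift_forest {s t : E → V} {S : Finset E} {π : V → V} (hπ : FC s t S π) (M : Nat) :
    ∀ (K : ℕ) (q : Fin K → V), Function.Injective q →
    (∀ i, ∃ x, π x = q i ∧ ∃ y, Nb s t S x y) →
    (∀ i j : Fin K, i < j → (Nb (fun e => π (s e)) (fun e => π (t e)) S (q i) (q j) ↔
      (i.val + 1 = j.val ∧ M.testBit i.val = true))) →
    ∃ p : Fin K → V, Function.Injective p ∧ (∀ i, (∃ j, π (p i) = q j) ∧ ∃ y, Nb s t S (p i) y) ∧
      ∀ i j : Fin K, i < j → (Nb s t S (p i) (p j) ↔
        (i.val + 1 = j.val ∧ M.testBit i.val = true)) := by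
  classical
  intro K
  induction K using Nat.strong_induction_on with
  | _ K ih =>
  intro q hq hqx hq'
  rcases Nat.eq_zero_or_pos K with h0 | h0
  · subst h0
    exact ⟨q, hq, fun i => i.elim0, fun i => i.elim0⟩
  have hex : ∃ k, k < K ∧ ∀ i, k ≤ i → i + 1 < K → M.testBit i = true :=
    ⟨K - 1, by omega, fun i h1 h2 => absurd h2 (by omega)⟩
  obtain ⟨hk, hrun⟩ := Nat.find_spec hex
  set k := Nat.find hex with hkdef
  have hmin : 0 < k → M.testBit (k - 1) = false := by
    intro h1
    rw [← Bool.not_eq_true]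
    intro h2
    refine Nat.find_min hex (m := k - 1) (by omega) ⟨by omega, fun i h3 h4 => ?_⟩
    rcases Nat.lt_or_ge i k with h5 | h5
    · have : i = k - 1 := by omega
      rw [this]; exact h2
    · exact hrun i h5 h4
  obtain ⟨p1, a1, a2, a3⟩ := ih k hk (fun i => q ⟨i.val, by omega⟩)
    (fun i j hij => by
      have := hq hij
      rw [Fin.mk.injEq] at this
      exact Fin.ext this)
    (fun i => hqx _) (fun i j hij => hq' ⟨i.val, by omega⟩ ⟨j.val, by omega⟩ hij)
  have hlast : ∃ p2 : Fin (K - k) → V, Function.Injective p2 ∧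
      (∀ i, (∃ j : Fin (K - k), π (p2 i) = q ⟨k + j.val, by omega⟩) ∧
        ∃ y, Nb s t S (p2 i) y) ∧
      ∀ i j : Fin (K - k), i < j → (Nb s t S (p2 i) (p2 j) ↔ i.val + 1 = j.val) := by
    by_cases h1 : K - k = 1
    · obtain ⟨x, hx, y, hy⟩ := hqx ⟨k, hk⟩
      refine ⟨fun _ => x, ?_, fun i => ⟨⟨⟨0, by omega⟩, by simpa using hx⟩, y, hy⟩, ?_⟩
      · intro i j _
        exact Fin.ext (by omega)
      · intro i j hij
        have : i.val < j.val := hij
        omega
    · have hA : Function.Injective (fun i : Fin (K - k) => q ⟨k + i.val, by omega⟩) := by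
        intro i j hij
        have := hq hij
        rw [Fin.mk.injEq] at this
        exact Fin.ext (by omega)
      have hB : ∀ i j : Fin (K - k), i < j →
          (Nb (fun e => π (s e)) (fun e => π (t e)) S (q ⟨k + i.val, by omega⟩)
            (q ⟨k + j.val, by omega⟩) ↔ i.val + 1 = j.val) := by
        intro i j hij
        have hij' : i.val < j.val := hij
        rw [hq' ⟨k + i.val, by omega⟩ ⟨k + j.val, by omega⟩ (by
          show k + i.val < k + j.val
          omega)]
        constructor
        · rintro ⟨h2, _⟩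
          have h2' : k + i.val + 1 = k + j.val := h2
          omega
        · intro h2
          refine ⟨?_, ?_⟩
          · show k + i.val + 1 = k + j.val
            omega
          · exact hrun (k + i.val) (by omega) (by omega)
      obtain ⟨p2, e1, e2, e3⟩ := lift_path' hπ (K := K - k) (by omega)
        (fun i => q ⟨k + i.val, by omega⟩) hA hB
      refine ⟨p2, e1, fun i => ⟨e2 i, ?_⟩, e3⟩
      by_cases hi : i.val + 1 < K - k
      · exact ⟨p2 ⟨i.val + 1, hi⟩, (e3 i ⟨i.val + 1, hi⟩ (by
          show i.val < i.val + 1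
          omega)).2 rfl⟩
      · refine ⟨p2 ⟨i.val - 1, by omega⟩, nb_comm ((e3 ⟨i.val - 1, by omega⟩ i (by
          show i.val - 1 < i.val
          omega)).2 ?_)⟩
        show i.val - 1 + 1 = i.val
        omega
  obtain ⟨p2, b1, b2, b3⟩ := hlast
  have hcross : ∀ (i : Fin k) (j : Fin (K - k)), p1 i ≠ p2 j ∧ ¬ Nb s t S (p1 i) (p2 j) := by
    intro i j
    obtain ⟨⟨i', hi'⟩, -⟩ := a2 i
    obtain ⟨⟨j', hj'⟩, -⟩ := b2 j
    have hne : (⟨i'.val, by omega⟩ : Fin K) < ⟨k + j'.val, by omega⟩ := by
      show i'.val < k + j'.val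
      omega
    have hne' : π (p2 j) ≠ π (p1 i) := by
      rw [hi', hj']
      exact fun h => absurd (hq h) (ne_of_gt hne)
    refine ⟨fun h => hne' (by rw [h]), fun h => ?_⟩
    have h1 := nb_map h hne'
    rw [hi', hj'] at h1
    obtain ⟨h2, h3⟩ := (hq' _ _ hne).1 h1
    have h2' : i'.val + 1 = k + j'.val := h2
    have h3' : M.testBit i'.val = true := h3
    have h4 : i'.val = k - 1 := by omega
    rw [h4, hmin (by omega)] at h3'
    exact absurd h3' (by simp)
  refine ⟨fun i => if h : i.val < k then p1 ⟨i.val, h⟩ else p2 ⟨i.val - k, by omega⟩, ?_, ?_, ?_⟩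
  · intro i j hij
    by_cases hi : i.val < k <;> by_cases hj : j.val < k
    · simp only [hi, hj, dif_pos] at hij
      have := a1 hij
      rw [Fin.mk.injEq] at this
      exact Fin.ext this
    · simp only [hi, hj, dif_pos, dif_neg, not_false_eq_true] at hij
      exact absurd hij (hcross _ _).1
    · simp only [hi, hj, dif_pos, dif_neg, not_false_eq_true] at hij
      exact absurd hij.symm (hcross _ _).1
    · simp only [hi, hj, dif_neg, not_false_eq_true] at hij
      have := b1 hij
      rw [Fin.mk.injEq] at this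
      exact Fin.ext (by omega)
  · intro i
    by_cases hi : i.val < k
    · obtain ⟨⟨j, hj⟩, y, hy⟩ := a2 ⟨i.val, hi⟩
      refine ⟨⟨⟨j.val, by omega⟩, ?_⟩, y, ?_⟩
      · simp only [hi, dif_pos]
        exact hj
      · simp only [hi, dif_pos]
        exact hy
    · obtain ⟨⟨j, hj⟩, y, hy⟩ := b2 ⟨i.val - k, by omega⟩
      refine ⟨⟨⟨k + j.val, by omega⟩, ?_⟩, y, ?_⟩
      · simp only [hi, dif_neg, not_false_eq_true]
        exact hj
      · simp only [hi, dif_neg, not_false_eq_true]
        exact hy
  · intro i j hij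
    have hij' : i.val < j.val := hij
    by_cases hi : i.val < k <;> by_cases hj : j.val < k
    · simp only [hi, hj, dif_pos]
      exact a3 ⟨i.val, hi⟩ ⟨j.val, hj⟩ hij
    · simp only [hi, hj, dif_pos, dif_neg, not_false_eq_true]
      refine ⟨fun h => absurd h (hcross _ _).2, ?_⟩
      rintro ⟨h1, h2⟩
      have h3 : i.val = k - 1 := by omega
      rw [h3, hmin (by omega)] at h2
      exact absurd h2 (by simp)
    · omega
    · simp only [hi, hj, dif_neg, not_false_eq_true]
      rw [b3 _ _ (by
        show i.val - k < j.val - k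
        omega)]
      constructor
      · intro h1
        have h1' : i.val - k + 1 = j.val - k := h1
        exact ⟨by omega, hrun i.val (by omega) (by omega)⟩
      · rintro ⟨h1, _⟩
        show i.val - k + 1 = j.val - k
        omega

/-- a linear forest in a contraction gives one in the graph -/
theorem lift_has {s t : E → V} {S : Finset E} {π : V → V} (hπ : FC s t S π) {M K : ℕ}
    (h : Has (Nb (fun e => π (s e)) (fun e => π (t e)) S) M K) : Has (Nb s t S) M K := by
  obtain ⟨q, h1, h2, h3⟩ := h
  obtain ⟨p, h4, h6, h5⟩ := lift_forest hπ M K q h1 (fun i => by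
    obtain ⟨y, hne, e, he, hE⟩ := h2 i
    rcases hE with ⟨h4, h4'⟩ | ⟨h4', h4⟩
    · refine ⟨s e, h4, t e, ?_, e, he, Or.inl ⟨rfl, rfl⟩⟩
      intro h5
      exact hne (by rw [← h4, ← h4']; exact congrArg π h5)
    · refine ⟨t e, h4, s e, ?_, e, he, Or.inr ⟨rfl, rfl⟩⟩
      intro h5
      exact hne (by rw [← h4, ← h4']; exact congrArg π h5)) h3
  exact ⟨p, h4, fun i => (h6 i).2, h5⟩

end Pool.Agent.U881.LF
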