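import Pool.Agent.U881.LF.Main
import Pool.Agent.U513.TH.Alg
import Pool.Agent.N393.C13.Hfp

set_option autoImplicit false
set_option linter.unusedSectionVars false
set_option synthInstance.maxHeartbeats 400000
set_option synthInstance.maxSize 2048

/-!
# Petersen colourings and `1/2`-flow-pairs of graphs without induced linear forests
-/

namespace Pool.Agent.U881.LF

open Finset Relation Pool.Agent Pool.Agent.H160R2.HF Pool.Agent.H179R3.HF Pool.Agent.TH499.NF
open Pool.Agent.R129.Hfp Pool.Agent.R140.PK Pool.Agent.N393.C13 Pool.Agent.N393.C13.Hf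
open Pool.Agent.R890.FF
open Pool.Agent.TH362.TF (nb padj IsPQ PQ Joins N1 NZ cut)

variable {V E : Type} [Fintype V] [Fintype E] [DecidableEq V] [DecidableEq E]

/-- flows with allowed values -/
theorem alg_lf {Γ : Type} [AddCommGroup Γ] {A : Γ → Prop} (hA : TH676.A.Alg A)
    {val : Fin 10 → Fin 10 → Γ} (hv : Pet A val)
    (h4 : ∃ σ : TH362.TF.F →+ Γ, ∀ x, x ≠ 0 → A (σ x)) {M : Nat} (hM : GoodM M)
    (s t : E → V) (hn : N1 s t univ) (h : ¬ Has (Nb s t univ) M 9) : TH676.A.FlowOn A s t ∅ ∅ :=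
  Pool.Agent.U513.TH.alg_class' hA hv h4 (Cl := fun s t => ¬ Has (Nb s t univ) M 9)
    (fun _ _ _ hπ h h' => h (lift_has hπ h')) (fun s t h1 h2 => mainM h1 hM h2) s t hn h

/-- `1/2`-flow-pairs -/
theorem hp_lf {M : Nat} (hM : GoodM M) (s t : E → V) (hn : N1 s t univ)
    (h : ¬ Has (Nb s t univ) M 9) : Hp s t := by
  classical
  by_contra hcon
  obtain ⟨π, hπ, hMi⟩ := exists_MinP Hp s t hn hcon
  rcases mainM hMi.n1 hM (fun h' => h (lift_has hπ h')) with h1 | h1
  · exact hMi.np (hp_of_nz hMi.n1 h1)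
  · obtain ⟨κ, c, hc⟩ := hMi.pet h1 (fun A1 A2 a1 a2 b1 b2 b3 b4 b5 b6 b7 =>
      hp_sum A1 A2 a1 a2 b1 b2 b3 b4 b5 b6 b7)
    have hall : ∀ {κ c}, PetComp (fun e => π (s e)) (fun e => π (t e)) κ c →
        Hp (ctr (nine c) (c (nb 0 0)) (fun e => π (s e)))
          (ctr (nine c) (c (nb 0 0)) (fun e => π (t e))) := by
      intro κ c hc
      obtain ⟨h2, h3⟩ := conn9 hc
      exact hMi.mn _ _ (mem_nine.2 ⟨nb 0 0, nb_ne 0 0, rfl⟩) h2 h3
    refine hMi.np ⟨(pet0 hc (hall hc)).1, fun w => ?_⟩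
    by_cases hw : w ∈ nine c
    · obtain ⟨k, _, rfl⟩ := mem_nine.1 hw
      have h4 := rot hc k
      refine (pet0 h4 (hall h4)).2 _ fun h5 => ?_
      obtain ⟨l, hl, h6⟩ := mem_nine.1 h5
      have h7 := hc.inj h6
      apply hl
      rw [← tau_sig k l, h7, tau_self]
    · exact (pet0 hc (hall hc)).2 w hw

end Pool.Agent.U881.LF
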